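import Mathlib

/-!
A random sampling lemma.
-/

open Finset

namespace Pool.Agent.Lib.MP_9f0d12_co

variable {α κ : Type} [DecidableEq α] [DecidableEq κ]

/-- Bernoulli weight of a subset. -/
def wt (L : Finset α) (p : ℝ) (S : Finset α) : ℝ := p ^ S.card * (1 - p) ^ (L \ S).card

lemma sum_wt_sup (L R : Finset α) (hR : R ⊆ L) (p : ℝ) :
    ∑ S ∈ L.powerset, wt L p S * (if R ⊆ S then 1 else 0) = p ^ R.card := by
  have h := Finset.prod_add (fun _ : α => p) (fun x => if x ∈ R then 0 else 1 - p) L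
  have h1 : ∏ x ∈ L, (p + if x ∈ R then 0 else 1 - p) = p ^ R.card := by
    have : ∀ x ∈ L, (p + if x ∈ R then 0 else 1 - p) = if x ∈ R then p else 1 := by
      intro x _
      split_ifs <;> ring
    rw [prod_congr rfl this, prod_ite_mem, inter_eq_right.mpr hR, prod_const]
  rw [← h1, h]
  refine sum_congr rfl fun S hS => ?_
  rw [prod_const, wt, mul_assoc]
  congr 1
  split_ifs with hRS
  · rw [mul_one, ← prod_const]
    refine prod_congr rfl fun x hx => ?_
    rw [if_neg fun h => (mem_sdiff.mp hx).2 (hRS h)]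
  · obtain ⟨x, hx, hxS⟩ := not_subset.mp hRS
    rw [mul_zero]
    symm
    exact prod_eq_zero (mem_sdiff.mpr ⟨hR hx, hxS⟩) (if_pos hx)

lemma sum_wt_card {ι : Type} (L : Finset α) (p : ℝ) (I : Finset ι) (R : ι → Finset α)
    (hR : ∀ i ∈ I, R i ⊆ L) :
    ∑ S ∈ L.powerset, wt L p S * ((I.filter fun i => R i ⊆ S).card : ℝ) =
      ∑ i ∈ I, p ^ (R i).card := by
  simp only [card_filter, Nat.cast_sum, mul_sum]
  rw [sum_comm]
  refine sum_congr rfl fun i hi => ?_
  rw [← sum_wt_sup L (R i) (hR i hi) p]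
  simp

lemma sampling (L : Finset α) (E : Finset (α × α))
    (hE : ∀ e ∈ E, e.1 ∈ L ∧ e.2 ∈ L ∧ e.1 ≠ e.2) (g : α × α → κ) (B H : ℝ)
    (hB : ∀ e ∈ E, ((E.filter fun e' => g e' = g e).card : ℝ) ≤ B)
    (hH : ∀ e ∈ E, ((E.filter fun e' => g e' = g e ∧
      ¬ Disjoint ({e.1, e.2} : Finset α) {e'.1, e'.2}).card : ℝ) ≤ H)
    (p lam c : ℝ) (hp0 : 0 < p) (hp1 : p < 1) (hlam : 0 < lam) :
    ∃ S ⊆ L, ∀ T : Finset κ, (T.card : ℝ) ≤ c * S.card →
      E.card * p ^ 2 - lam * c * (L.card * p) - E.card * (H * p ^ 2 + B * p ^ 4) / lam ≤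
        ((E.filter fun e => e.1 ∈ S ∧ e.2 ∈ S ∧ g e ∉ T).card : ℝ) := by
  let R₁ : α × α → Finset α := fun e => {e.1, e.2}
  let I := (E ×ˢ E).filter fun q => g q.2 = g q.1
  let R₂ : (α × α) × (α × α) → Finset α := fun q => R₁ q.1 ∪ R₁ q.2
  have hR₁ : ∀ e ∈ E, R₁ e ⊆ L := fun e he => by
    simp only [R₁, insert_subset_iff, singleton_subset_iff]
    exact ⟨(hE e he).1, (hE e he).2.1⟩
  have hc₁ : ∀ e ∈ E, (R₁ e).card = 2 := fun e he => card_pair (hE e he).2.2
  have hR₂ : ∀ q ∈ I, R₂ q ⊆ L := fun q hq => by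
    obtain ⟨h1, h2⟩ := mem_product.mp (mem_filter.mp hq).1
    exact union_subset (hR₁ _ h1) (hR₁ _ h2)
  have e₀ : ∑ S ∈ L.powerset, wt L p S = 1 := by
    simpa using sum_wt_sup L ∅ (empty_subset _) p
  have e₁ := sum_wt_card L p E R₁ hR₁
  have e₂ := sum_wt_card L p L (fun x => {x}) (fun x hx => singleton_subset_iff.mpr hx)
  have e₃ := sum_wt_card L p I R₂ hR₂
  have e₁' : ∑ i ∈ E, p ^ (R₁ i).card = E.card * p ^ 2 := by
    rw [← nsmul_eq_mul, ← sum_const]
    exact sum_congr rfl fun e he => by rw [hc₁ e he]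
  rw [e₁'] at e₁
  simp only [card_singleton, pow_one, sum_const, nsmul_eq_mul] at e₂
  have e₄ : ∑ q ∈ I, p ^ (R₂ q).card ≤ E.card * (H * p ^ 2 + B * p ^ 4) := by
    rw [sum_filter, sum_product, ← nsmul_eq_mul, ← sum_const]
    refine sum_le_sum fun e he => ?_
    have h1 : ∀ e' ∈ E, (if g e' = g e then p ^ (R₂ (e, e')).card else 0) ≤
        (if g e' = g e ∧ ¬ Disjoint (R₁ e) (R₁ e') then p ^ 2 else 0) +
          (if g e' = g e then p ^ 4 else 0) := by
      intro e' he'
      by_cases hg : g e' = g e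
      · by_cases hd : Disjoint (R₁ e) (R₁ e')
        · have : (R₂ (e, e')).card = 4 := by
            simp only [R₂]
            rw [card_union_of_disjoint hd, hc₁ e he, hc₁ e' he']
          simp [hg, hd, this]
        · have : 2 ≤ (R₂ (e, e')).card := hc₁ e he ▸ card_le_card subset_union_left
          have h2 := pow_le_pow_of_le_one hp0.le hp1.le this
          have h3 : 0 ≤ p ^ 4 := by positivity
          simp only [hg, hd, if_true, not_false_eq_true, and_self]
          linarith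
      · simp [hg]
    refine (sum_le_sum h1).trans ?_
    rw [sum_add_distrib, ← sum_filter, ← sum_filter, sum_const, sum_const, nsmul_eq_mul,
      nsmul_eq_mul]
    have := hB e he
    have := hH e he
    gcongr
  let Φ : Finset α → ℝ := fun S => ((E.filter fun e => R₁ e ⊆ S).card : ℝ) -
    lam * c * ((L.filter fun x => {x} ⊆ S).card : ℝ) - ((I.filter fun q => R₂ q ⊆ S).card : ℝ) / lam
  set M := E.card * p ^ 2 - lam * c * (L.card * p) - E.card * (H * p ^ 2 + B * p ^ 4) / lam with hM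
  have hsum : ∑ S ∈ L.powerset, wt L p S * M ≤ ∑ S ∈ L.powerset, wt L p S * Φ S := by
    have : ∀ S, wt L p S * Φ S = wt L p S * ((E.filter fun e => R₁ e ⊆ S).card : ℝ) -
        lam * c * (wt L p S * ((L.filter fun x => {x} ⊆ S).card : ℝ)) -
        (wt L p S * ((I.filter fun q => R₂ q ⊆ S).card : ℝ)) / lam := by
      intro S
      simp only [Φ]
      ring
    simp only [this, sum_sub_distrib, ← mul_sum, ← sum_div, ← sum_mul]
    rw [e₀, e₁, e₂, e₃, one_mul, hM]
    have := div_le_div_of_nonneg_right e₄ hlam.le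
    linarith
  obtain ⟨S, hS, hSM⟩ := exists_le_of_sum_le ⟨∅, empty_mem_powerset L⟩ hsum
  have hw : 0 < wt L p S := by
    have : 0 < 1 - p := by linarith
    unfold wt
    positivity
  have hMΦ : M ≤ Φ S := le_of_mul_le_mul_left hSM hw
  have hSL := mem_powerset.mp hS
  refine ⟨S, hSL, fun T hT => hMΦ.trans ?_⟩
  have f₂ : (L.filter fun x => ({x} : Finset α) ⊆ S) = S := by
    ext x
    simp only [mem_filter, singleton_subset_iff]
    exact ⟨fun h => h.2, fun h => ⟨hSL h, h⟩⟩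
  set ES := E.filter fun e => R₁ e ⊆ S with hES
  let cn : κ → ℝ := fun δ => ((ES.filter fun e => g e = δ).card : ℝ)
  have f₁ : (ES.card : ℝ) = ((E.filter fun e => e.1 ∈ S ∧ e.2 ∈ S ∧ g e ∉ T).card : ℝ) +
      ((ES.filter fun e => g e ∈ T).card : ℝ) := by
    rw [← card_filter_add_card_filter_not (s := ES) (fun e => g e ∈ T), Nat.cast_add, add_comm]
    congr 2
    rw [hES, filter_filter]
    congr 1
    refine filter_congr fun e _ => ?_
    simp only [R₁, insert_subset_iff, singleton_subset_iff, and_assoc]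
  have f₃ : ((ES.filter fun e => g e ∈ T).card : ℝ) = ∑ δ ∈ T, cn δ := by
    rw [card_eq_sum_card_fiberwise (f := g) (s := ES.filter fun e => g e ∈ T) (t := T)
      (fun e he => (mem_filter.mp he).2), Nat.cast_sum]
    refine sum_congr rfl fun δ hδ => ?_
    simp only [cn, filter_filter]
    congr 2
    refine filter_congr fun e _ => ⟨fun h => h.2, fun h => ⟨h ▸ hδ, h⟩⟩
  have f₄ : ∑ δ ∈ T, cn δ ^ 2 ≤ ((I.filter fun q => R₂ q ⊆ S).card : ℝ) := by
    have h1 : (T.biUnion fun δ => (ES.filter fun e => g e = δ) ×ˢ (ES.filter fun e => g e = δ)) ⊆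
        I.filter fun q => R₂ q ⊆ S := by
      intro q hq
      obtain ⟨δ, -, hq⟩ := mem_biUnion.mp hq
      obtain ⟨h1, h2⟩ := mem_product.mp hq
      obtain ⟨h1, h1'⟩ := mem_filter.mp h1
      obtain ⟨h2, h2'⟩ := mem_filter.mp h2
      obtain ⟨h1, h1''⟩ := mem_filter.mp h1
      obtain ⟨h2, h2''⟩ := mem_filter.mp h2
      exact mem_filter.mpr ⟨mem_filter.mpr ⟨mem_product.mpr ⟨h1, h2⟩, h2'.trans h1'.symm⟩,
        union_subset h1'' h2''⟩
    have h2 := card_le_card h1
    rw [card_biUnion] at h2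
    · simp only [card_product] at h2
      simp only [cn, sq]
      exact_mod_cast h2
    · intro δ _ δ' _ hne
      refine disjoint_left.mpr fun q h1 h2 => hne ?_
      exact (mem_filter.mp (mem_product.mp h1).1).2.symm.trans
        (mem_filter.mp (mem_product.mp h2).1).2
  have f₅ : ∑ δ ∈ T, cn δ ≤ lam * T.card + (∑ δ ∈ T, cn δ ^ 2) / lam := by
    rw [sum_div, mul_comm, ← nsmul_eq_mul, ← sum_const, ← sum_add_distrib]
    refine sum_le_sum fun δ _ => ?_
    have : cn δ * lam ≤ lam * lam + cn δ ^ 2 := by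
      nlinarith [sq_nonneg (cn δ - lam), sq_nonneg (cn δ), sq_nonneg lam]
    have h2 : cn δ - lam ≤ cn δ ^ 2 / lam := by
      rw [le_div_iff₀ hlam]; linarith
    linarith
  have f₆ := div_le_div_of_nonneg_right f₄ hlam.le
  have f₇ := mul_le_mul_of_nonneg_left hT hlam.le
  simp only [Φ]
  rw [f₂, f₁, f₃]
  linarith

end Pool.Agent.Lib.MP_9f0d12_co
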