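import Mathlib

/-!
Ungar's theorem: `2m` points of the plane with distinct abscissae, not all on a line,
determine at least `2m` slopes.
-/

open Finset

namespace Pool.Agent.Lib.MP_9f0d12_co

/-- slope of the segment from `p` to `q` -/
noncomputable def slp (p q : ℝ × ℝ) : ℝ := (q.2 - p.2) / (q.1 - p.1)

/-- the set of slopes -/
noncomputable def slopes (P : Finset (ℝ × ℝ)) : Finset ℝ :=
  P.offDiag.image fun e => slp e.1 e.2

/-- height in direction `θ` -/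
def ht (θ : ℝ) (p : ℝ × ℝ) : ℝ := p.2 - θ * p.1

def IsLow (P : Finset (ℝ × ℝ)) (m : ℕ) (r : ℝ × ℝ → ℝ × ℝ → Prop) (A : Finset (ℝ × ℝ)) : Prop :=
  A ⊆ P ∧ A.card = m ∧ ∀ a ∈ A, ∀ b ∈ P, b ∉ A → r a b

lemma isLow_unique {P : Finset (ℝ × ℝ)} {m : ℕ} {r : ℝ × ℝ → ℝ × ℝ → Prop}
    (hr : ∀ a b, r a b → ¬ r b a) {A B : Finset (ℝ × ℝ)} (hA : IsLow P m r A)
    (hB : IsLow P m r B) : A = B := by
  by_contra hne
  have h1 : ¬ A ⊆ B := fun h => hne (eq_of_subset_of_card_le h (by rw [hA.2.1, hB.2.1]))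
  have h2 : ¬ B ⊆ A := fun h => hne (eq_of_subset_of_card_le h (by rw [hA.2.1, hB.2.1])).symm
  obtain ⟨a, ha, ha'⟩ := not_subset.mp h1
  obtain ⟨b, hb, hb'⟩ := not_subset.mp h2
  exact hr a b (hA.2.2 a ha b (hB.1 hb) hb') (hB.2.2 b hb a (hA.1 ha) ha')

lemma exists_isLow {K : Type} [LinearOrder K] (P : Finset (ℝ × ℝ)) (κ : ℝ × ℝ → K)
    (hκ : Function.Injective κ) : ∀ m ≤ P.card, ∃ A, IsLow P m (fun a b => κ a < κ b) A := by
  intro m
  induction m with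
  | zero => intro _; exact ⟨∅, empty_subset _, rfl, by simp⟩
  | succ m ih =>
    intro hm
    obtain ⟨A, hAP, hAc, hA⟩ := ih (by omega)
    have hne : (P \ A).Nonempty := by
      rw [← card_pos, card_sdiff_of_subset hAP]; omega
    obtain ⟨c, hc, hcmin⟩ := exists_min_image (P \ A) κ hne
    obtain ⟨hcP, hcA⟩ := mem_sdiff.mp hc
    refine ⟨insert c A, insert_subset hcP hAP, by rw [card_insert_of_notMem hcA, hAc], ?_⟩
    intro a ha b hb hbA
    rw [mem_insert, not_or] at hbA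
    rcases mem_insert.mp ha with rfl | ha
    · exact lt_of_le_of_ne (hcmin b (mem_sdiff.mpr ⟨hb, hbA.2⟩)) fun h => hbA.1 (hκ h).symm
    · exact hA a ha b hb hbA.2

def rp (θ : ℝ) (a b : ℝ × ℝ) : Prop := ht θ a < ht θ b ∨ (ht θ a = ht θ b ∧ b.1 < a.1)

def rm (θ : ℝ) (a b : ℝ × ℝ) : Prop := ht θ a < ht θ b ∨ (ht θ a = ht θ b ∧ a.1 < b.1)

lemma rp_asymm (θ : ℝ) (a b : ℝ × ℝ) (h : rp θ a b) : ¬ rp θ b a := by
  intro h'
  rcases h with h | ⟨h, g⟩ <;> rcases h' with h' | ⟨h', g'⟩ <;> linarith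

lemma rm_asymm (θ : ℝ) (a b : ℝ × ℝ) (h : rm θ a b) : ¬ rm θ b a := by
  intro h'
  rcases h with h | ⟨h, g⟩ <;> rcases h' with h' | ⟨h', g'⟩ <;> linarith

lemma exists_rp (P : Finset (ℝ × ℝ)) (m : ℕ) (hm : m ≤ P.card) (θ : ℝ) :
    ∃ A, IsLow P m (rp θ) A := by
  obtain ⟨A, hA⟩ := exists_isLow P (fun p => toLex (ht θ p, -p.1)) (by
    intro p q h
    simp only [toLex_inj, Prod.mk.injEq, neg_inj, ht] at h
    exact Prod.ext h.2 (by rw [h.2] at h; linarith [h.1])) m hm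
  refine ⟨A, hA.1, hA.2.1, fun a ha b hb hbA => ?_⟩
  have := hA.2.2 a ha b hb hbA
  simpa [Prod.Lex.toLex_lt_toLex, rp] using this

lemma exists_rm (P : Finset (ℝ × ℝ)) (m : ℕ) (hm : m ≤ P.card) (θ : ℝ) :
    ∃ A, IsLow P m (rm θ) A := by
  obtain ⟨A, hA⟩ := exists_isLow P (fun p => toLex (ht θ p, p.1)) (by
    intro p q h
    simp only [toLex_inj, Prod.mk.injEq, ht] at h
    exact Prod.ext h.2 (by rw [h.2] at h; linarith [h.1])) m hm
  refine ⟨A, hA.1, hA.2.1, fun a ha b hb hbA => ?_⟩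
  have := hA.2.2 a ha b hb hbA
  simpa [Prod.Lex.toLex_lt_toLex, rm] using this

lemma ht_sub (θ : ℝ) (a b : ℝ × ℝ) (h : b.1 - a.1 ≠ 0) :
    ht θ b - ht θ a = (b.1 - a.1) * (slp a b - θ) := by
  unfold ht slp
  field_simp
  ring

lemma slp_mem {P : Finset (ℝ × ℝ)} {a b : ℝ × ℝ} (ha : a ∈ P) (hb : b ∈ P) (hab : a ≠ b) :
    slp a b ∈ slopes P :=
  mem_image.mpr ⟨(a, b), mem_offDiag.mpr ⟨ha, hb, hab⟩, rfl⟩

section main

variable {P : Finset (ℝ × ℝ)} (hx : ∀ p ∈ P, ∀ q ∈ P, p.1 = q.1 → p = q)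
include hx

lemma rm_of_rp {α β : ℝ} (hαβ : α < β) (hno : ∀ σ ∈ slopes P, σ ≤ α ∨ β ≤ σ)
    {a b : ℝ × ℝ} (ha : a ∈ P) (hb : b ∈ P) (hab : a ≠ b) (h : rp α a b) : rm β a b := by
  have hu : b.1 - a.1 ≠ 0 := fun h => hab (hx a ha b hb (by linarith))
  have h1 := ht_sub α a b hu
  have h2 := ht_sub β a b hu
  rcases hno _ (slp_mem ha hb hab) with hs | hs
  · have hneg : b.1 - a.1 < 0 := by
      rcases h with h | h
      · by_contra hc
        have : 0 ≤ b.1 - a.1 := not_lt.mp hc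
        nlinarith
      · linarith [h.2]
    left
    nlinarith
  · have hpos : 0 < b.1 - a.1 := by
      rcases h with h | h
      · by_contra hc
        have : b.1 - a.1 ≤ 0 := not_lt.mp hc
        nlinarith
      · exfalso
        have : (b.1 - a.1) * (slp a b - α) = 0 := by linarith [h.1]
        rcases mul_eq_zero.mp this with h' | h'
        · exact hu h'
        · linarith
    have : 0 ≤ (b.1 - a.1) * (slp a b - β) := mul_nonneg hpos.le (by linarith)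
    rcases this.lt_or_eq with h' | h'
    · left; linarith
    · right; exact ⟨by linarith, by linarith⟩

lemma wedge {θ₁ θ₂ x₀ y₀ ε₁ ε₂ : ℝ} (hθ : θ₁ ≠ θ₂) {S₁ S₂ : Finset (ℝ × ℝ)} (h₁ : S₁ ⊆ P)
    (h₂ : S₂ ⊆ P) (l₁ : ∀ p ∈ S₁, p.2 - y₀ = θ₁ * (p.1 - x₀))
    (l₂ : ∀ p ∈ S₂, p.2 - y₀ = θ₂ * (p.1 - x₀)) (e₁ : ∀ p ∈ S₁, 0 < ε₁ * (p.1 - x₀))
    (e₂ : ∀ p ∈ S₂, 0 < ε₂ * (p.1 - x₀)) (n₁ : S₁.Nonempty) (n₂ : S₂.Nonempty) :
    S₁.card + S₂.card ≤
      ((slopes P).filter fun σ => 0 < ε₁ * ε₂ * ((σ - θ₁) * (σ - θ₂))).card + 1 := by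
  have hinj : ∀ (ε : ℝ) (S : Finset (ℝ × ℝ)), S ⊆ P → (∀ p ∈ S, 0 < ε * (p.1 - x₀)) →
      Set.InjOn (fun p : ℝ × ℝ => Real.log (ε * (p.1 - x₀))) S := by
    intro ε S hS he p hp q hq hpq
    have := Real.log_injOn_pos (he p hp) (he q hq) hpq
    have hε : ε ≠ 0 := by
      rintro rfl
      simpa using he p hp
    have := mul_left_cancel₀ hε this
    exact hx p (hS hp) q (hS hq) (by linarith)
  let T₁ := S₁.image fun p : ℝ × ℝ => Real.log (ε₁ * (p.1 - x₀))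
  let T₂ := S₂.image fun p : ℝ × ℝ => - Real.log (ε₂ * (p.1 - x₀))
  have c₁ : T₁.card = S₁.card := card_image_of_injOn (hinj ε₁ S₁ h₁ e₁)
  have c₂ : T₂.card = S₂.card := card_image_of_injOn fun p hp q hq hpq =>
    hinj ε₂ S₂ h₂ e₂ hp hq (neg_injective hpq)
  have cd := cauchy_davenport_add_of_linearOrder_isCancelAdd (s := T₁) (t := T₂) (n₁.image _)
    (n₂.image _)
  have hsub : (open scoped Pointwise in T₁ + T₂) ⊆
      ((slopes P).filter fun σ => 0 < ε₁ * ε₂ * ((σ - θ₁) * (σ - θ₂))).image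
        fun σ => Real.log (ε₁ / ε₂ * ((σ - θ₂) / (σ - θ₁))) := by
    intro v hv
    obtain ⟨v₁, hv₁, v₂, hv₂, rfl⟩ := Finset.mem_add.mp hv
    obtain ⟨p, hp, rfl⟩ := mem_image.mp hv₁
    obtain ⟨q, hq, rfl⟩ := mem_image.mp hv₂
    have hs := e₁ p hp
    have ht' := e₂ q hq
    have hs0 : p.1 - x₀ ≠ 0 := fun h => by simp [h] at hs
    have ht0 : q.1 - x₀ ≠ 0 := fun h => by simp [h] at ht'
    have he₁ : ε₁ ≠ 0 := fun h => by simp [h] at hs
    have he₂ : ε₂ ≠ 0 := fun h => by simp [h] at ht'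
    have hθ' : θ₂ - θ₁ ≠ 0 := sub_ne_zero.mpr hθ.symm
    have hpq : p ≠ q := by
      rintro rfl
      have := (l₁ p hp).symm.trans (l₂ p hq)
      exact hθ (mul_right_cancel₀ hs0 this)
    have hu : q.1 - p.1 ≠ 0 := fun h => hpq (hx p (h₁ hp) q (h₂ hq) (by linarith))
    have hq2 : q.2 - p.2 = θ₂ * (q.1 - x₀) - θ₁ * (p.1 - x₀) := by
      rw [← l₁ p hp, ← l₂ q hq]; ring
    have a₁ : slp p q - θ₁ = (θ₂ - θ₁) * (q.1 - x₀) / (q.1 - p.1) := by
      unfold slp; rw [hq2]; field_simp; ring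
    have a₂ : slp p q - θ₂ = (θ₂ - θ₁) * (p.1 - x₀) / (q.1 - p.1) := by
      unfold slp; rw [hq2]; field_simp; ring
    refine mem_image.mpr ⟨slp p q, mem_filter.mpr ⟨slp_mem (h₁ hp) (h₂ hq) hpq, ?_⟩, ?_⟩
    · rw [a₁, a₂]
      have : ε₁ * ε₂ * ((θ₂ - θ₁) * (q.1 - x₀) / (q.1 - p.1) *
          ((θ₂ - θ₁) * (p.1 - x₀) / (q.1 - p.1))) =
          (ε₁ * (p.1 - x₀)) * (ε₂ * (q.1 - x₀)) * ((θ₂ - θ₁) / (q.1 - p.1)) ^ 2 := by
        field_simp
      rw [this]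
      have : (θ₂ - θ₁) / (q.1 - p.1) ≠ 0 := div_ne_zero hθ' hu
      positivity
    · rw [a₁, a₂, ← sub_eq_add_neg, ← Real.log_div hs.ne' ht'.ne']
      congr 1
      field_simp
  have := (card_le_card hsub).trans card_image_le
  have h1 := card_pos.mpr n₁
  omega

lemma wedge' {θ₁ θ₂ l₁ l₂ η₁ η₂ : ℝ} (hθ : θ₁ < θ₂) (hη₁ : η₁ ≠ 0) (hη₂ : η₂ ≠ 0)
    {C : Finset (ℝ × ℝ)} (hC : C ⊆ P)
    (hO : ∀ c ∈ C, ht θ₁ c = l₁ → ht θ₂ c = l₂ → False)
    (s₁ : ∀ c ∈ C, η₁ * (ht θ₁ c - l₁) ≤ 0) (s₂ : ∀ c ∈ C, η₂ * (ht θ₂ c - l₂) ≤ 0)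
    {D₁ D₂ : ℕ} (p₁ : 0 < D₁) (p₂ : 0 < D₂) (d₁ : D₁ ≤ (C.filter fun c => ht θ₁ c = l₁).card)
    (d₂ : D₂ ≤ (C.filter fun c => ht θ₂ c = l₂).card) :
    D₁ + D₂ ≤ ((slopes P).filter fun σ => η₁ * η₂ * ((σ - θ₁) * (σ - θ₂)) < 0).card + 1 := by
  have hθ' : θ₂ - θ₁ ≠ 0 := sub_ne_zero.mpr hθ.ne'
  obtain ⟨x₀, hx₀⟩ : ∃ x₀, (θ₂ - θ₁) * x₀ = l₁ - l₂ := ⟨(l₁ - l₂) / (θ₂ - θ₁), by field_simp⟩
  have key := wedge hx (x₀ := x₀) (y₀ := l₁ + θ₁ * x₀) (ε₁ := η₂) (ε₂ := -η₁) hθ.ne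
    ((filter_subset (fun c => ht θ₁ c = l₁) C).trans hC)
    ((filter_subset (fun c => ht θ₂ c = l₂) C).trans hC) ?_ ?_ ?_ ?_
    (card_pos.mp (by omega)) (card_pos.mp (by omega))
  · have : ((slopes P).filter fun σ => 0 < η₂ * -η₁ * ((σ - θ₁) * (σ - θ₂))) =
        (slopes P).filter fun σ => η₁ * η₂ * ((σ - θ₁) * (σ - θ₂)) < 0 := by
      refine filter_congr fun σ _ => ?_
      constructor <;> intro h <;> linarith
    rw [this] at key
    omega
  · intro p hp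
    have := (mem_filter.mp hp).2
    unfold ht at this
    linarith
  · intro p hp
    have := (mem_filter.mp hp).2
    unfold ht at this
    linarith
  · intro p hp
    obtain ⟨hpC, hp1⟩ := mem_filter.mp hp
    have h2 := s₂ p hpC
    have h3 : ht θ₂ p - l₂ = -((θ₂ - θ₁) * (p.1 - x₀)) := by
      unfold ht at hp1 ⊢; linarith
    have h4 : p.1 - x₀ ≠ 0 := fun h => hO p hpC hp1 (by rw [h] at h3; linarith)
    rw [h3] at h2
    have h5 : 0 ≤ η₂ * (p.1 - x₀) := by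
      by_contra hc
      have : η₂ * (p.1 - x₀) < 0 := not_le.mp hc
      nlinarith
    exact lt_of_le_of_ne h5 (mul_ne_zero hη₂ h4).symm
  · intro p hp
    obtain ⟨hpC, hp2⟩ := mem_filter.mp hp
    have h2 := s₁ p hpC
    have h3 : ht θ₁ p - l₁ = (θ₂ - θ₁) * (p.1 - x₀) := by
      unfold ht at hp2 ⊢; linarith
    have h4 : p.1 - x₀ ≠ 0 := fun h => hO p hpC (by rw [h] at h3; linarith) hp2
    rw [h3] at h2
    have h5 : 0 ≤ -η₁ * (p.1 - x₀) := by
      by_contra hc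
      have : -η₁ * (p.1 - x₀) < 0 := not_le.mp hc
      nlinarith
    exact lt_of_le_of_ne h5 (mul_ne_zero (neg_ne_zero.mpr hη₁) h4).symm

end main

/-- A line of slope `θ` separates `B` from its complement and carries `D` points of each. -/
def Touch (P B : Finset (ℝ × ℝ)) (θ : ℝ) (D : ℕ) : Prop :=
  ∃ l : ℝ, (∀ a ∈ B, ht θ a ≤ l) ∧ (∀ b ∈ P \ B, l ≤ ht θ b) ∧
    D ≤ (B.filter fun c => ht θ c = l).card ∧ D ≤ ((P \ B).filter fun c => ht θ c = l).card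

lemma touch_of_ne {P A B : Finset (ℝ × ℝ)} {θ : ℝ} (hA : A ⊆ P) (hB : B ⊆ P)
    (hc : A.card = B.card) (hne : A ≠ B)
    (lA : ∀ a ∈ A, ∀ b ∈ P, b ∉ A → ht θ a ≤ ht θ b)
    (lB : ∀ a ∈ B, ∀ b ∈ P, b ∉ B → ht θ a ≤ ht θ b) :
    0 < (B \ A).card ∧ Touch P A θ (B \ A).card ∧ Touch P B θ (B \ A).card := by
  have h1 : ¬ A ⊆ B := fun h => hne (eq_of_subset_of_card_le h hc.ge)
  have h2 : ¬ B ⊆ A := fun h => hne (eq_of_subset_of_card_le h hc.le).symm
  obtain ⟨a, ha, ha'⟩ := not_subset.mp h1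
  obtain ⟨b, hb, hb'⟩ := not_subset.mp h2
  have hcc : (A \ B).card = (B \ A).card := card_sdiff_eq_card_sdiff_iff.mpr hc
  have e1 : ∀ a ∈ A \ B, ∀ b ∈ B \ A, ht θ a = ht θ b := by
    intro a ha b hb
    obtain ⟨ha, ha'⟩ := mem_sdiff.mp ha
    obtain ⟨hb, hb'⟩ := mem_sdiff.mp hb
    exact le_antisymm (lA a ha b (hB hb) hb') (lB b hb a (hA ha) ha')
  have haa : a ∈ A \ B := mem_sdiff.mpr ⟨ha, ha'⟩
  have hbb : b ∈ B \ A := mem_sdiff.mpr ⟨hb, hb'⟩
  have eab := e1 a haa b hbb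
  refine ⟨card_pos.mpr ⟨b, hbb⟩, ⟨ht θ b, fun c hc => lA c hc b (hB hb) hb', fun c hc => ?_,
    ?_, ?_⟩, ⟨ht θ b, fun c hc => ?_, fun c hc => ?_, ?_, ?_⟩⟩
  · rw [← eab]; exact lA a ha c (mem_sdiff.mp hc).1 (mem_sdiff.mp hc).2
  · rw [← hcc]
    exact card_le_card fun c hc => mem_filter.mpr ⟨(mem_sdiff.mp hc).1, e1 c hc b hbb⟩
  · exact card_le_card fun c hc => mem_filter.mpr
      ⟨mem_sdiff.mpr ⟨hB (mem_sdiff.mp hc).1, (mem_sdiff.mp hc).2⟩,
        (e1 a haa c hc).symm.trans eab⟩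
  · rw [← eab]; exact lB c hc a (hA ha) ha'
  · exact lB b hb c (mem_sdiff.mp hc).1 (mem_sdiff.mp hc).2
  · exact card_le_card fun c hc => mem_filter.mpr
      ⟨(mem_sdiff.mp hc).1, (e1 a haa c hc).symm.trans eab⟩
  · rw [← hcc]
    exact card_le_card fun c hc => mem_filter.mpr
      ⟨mem_sdiff.mpr ⟨hA (mem_sdiff.mp hc).1, (mem_sdiff.mp hc).2⟩, e1 c hc b hbb⟩

section main

variable {P : Finset (ℝ × ℝ)} (hx : ∀ p ∈ P, ∀ q ∈ P, p.1 = q.1 → p = q)
include hx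

omit hx in
lemma ht_two {θ₁ θ₂ : ℝ} (hθ : θ₁ < θ₂) {a b : ℝ × ℝ} (h₁ : ht θ₁ a = ht θ₁ b)
    (h₂ : ht θ₂ a = ht θ₂ b) : a = b := by
  unfold ht at h₁ h₂
  have : (θ₂ - θ₁) * (a.1 - b.1) = 0 := by linarith
  rcases mul_eq_zero.mp this with h | h
  · linarith
  · have h' : a.1 = b.1 := by linarith
    exact Prod.ext h' (by rw [h'] at h₁; linarith)

lemma between {B : Finset (ℝ × ℝ)} (hB : B ⊆ P) {θ₁ θ₂ : ℝ} (hθ : θ₁ < θ₂) {D₁ D₂ : ℕ}
    (p₁ : 0 < D₁) (p₂ : 0 < D₂) (t₁ : Touch P B θ₁ D₁) (t₂ : Touch P B θ₂ D₂) :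
    D₁ + D₂ ≤ ((slopes P).filter fun σ => θ₁ < σ ∧ σ < θ₂).card + 1 := by
  obtain ⟨l₁, a₁, b₁, c₁, d₁⟩ := t₁
  obtain ⟨l₂, a₂, b₂, c₂, d₂⟩ := t₂
  have hf : ∀ η : ℝ, η * η = 1 →
      ((slopes P).filter fun σ => η * η * ((σ - θ₁) * (σ - θ₂)) < 0) =
      (slopes P).filter fun σ => θ₁ < σ ∧ σ < θ₂ := by
    intro η hη
    refine filter_congr fun σ _ => ?_
    rw [hη, one_mul]
    constructor
    · intro h
      constructor
      · by_contra hc
        have : σ ≤ θ₁ := not_lt.mp hc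
        nlinarith
      · by_contra hc
        have : θ₂ ≤ σ := not_lt.mp hc
        nlinarith
    · intro h
      nlinarith [h.1, h.2]
  by_cases hO : ∀ c ∈ B, ht θ₁ c = l₁ → ht θ₂ c = l₂ → False
  · rw [← hf 1 (by norm_num)]
    exact wedge' hx hθ one_ne_zero one_ne_zero hB hO (fun c hc => by linarith [a₁ c hc])
      (fun c hc => by linarith [a₂ c hc]) p₁ p₂ c₁ c₂
  · push Not at hO
    obtain ⟨o, ho, o₁, o₂, -⟩ := hO
    rw [← hf (-1) (by norm_num)]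
    refine wedge' hx hθ (by norm_num) (by norm_num) sdiff_subset ?_
      (fun c hc => by linarith [b₁ c hc]) (fun c hc => by linarith [b₂ c hc]) p₁ p₂ d₁ d₂
    intro c hc e₁ e₂
    have := ht_two hθ (e₁.trans o₁.symm) (e₂.trans o₂.symm)
    exact (mem_sdiff.mp hc).2 (this ▸ ho)

lemma outside {B : Finset (ℝ × ℝ)} (hB : B ⊆ P) {θ₁ θ₂ : ℝ} (hθ : θ₁ < θ₂) {D₁ D₂ : ℕ}
    (p₁ : 0 < D₁) (p₂ : 0 < D₂) (t₁ : Touch P B θ₁ D₁) (t₂ : Touch P (P \ B) θ₂ D₂) :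
    D₁ + D₂ ≤ ((slopes P).filter fun σ => ¬ (θ₁ ≤ σ ∧ σ ≤ θ₂)).card + 1 := by
  obtain ⟨l₁, a₁, b₁, c₁, d₁⟩ := t₁
  obtain ⟨l₂, a₂, b₂, c₂, d₂⟩ := t₂
  rw [Finset.sdiff_sdiff_eq_self hB] at b₂ d₂
  have hf : ∀ η η' : ℝ, η * η' = -1 →
      ((slopes P).filter fun σ => η * η' * ((σ - θ₁) * (σ - θ₂)) < 0) =
      (slopes P).filter fun σ => ¬ (θ₁ ≤ σ ∧ σ ≤ θ₂) := by
    intro η η' hη
    refine filter_congr fun σ _ => ?_
    rw [hη]
    constructor
    · intro h h'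
      nlinarith [h'.1, h'.2]
    · intro h
      rcases not_and_or.mp h with h | h
      · have : σ < θ₁ := not_le.mp h
        nlinarith
      · have : θ₂ < σ := not_le.mp h
        nlinarith
  by_cases hO : ∀ c ∈ B, ht θ₁ c = l₁ → ht θ₂ c = l₂ → False
  · rw [← hf 1 (-1) (by norm_num)]
    exact wedge' hx hθ one_ne_zero (by norm_num) hB hO (fun c hc => by linarith [a₁ c hc])
      (fun c hc => by linarith [b₂ c hc]) p₁ p₂ c₁ d₂
  · push Not at hO
    obtain ⟨o, ho, o₁, o₂, -⟩ := hO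
    rw [← hf (-1) 1 (by norm_num)]
    refine wedge' hx hθ (by norm_num) (by norm_num) sdiff_subset ?_
      (fun c hc => by linarith [b₁ c hc]) (fun c hc => by linarith [a₂ c hc]) p₁ p₂ d₁ c₂
    intro c hc e₁ e₂
    have := ht_two hθ (e₁.trans o₁.symm) (e₂.trans o₂.symm)
    exact (mem_sdiff.mp hc).2 (this ▸ ho)

theorem ungar_even {m : ℕ} (hP : P.card = 2 * m) (hnc : 1 < (slopes P).card) :
    2 * m ≤ (slopes P).card := by
  classical
  have hm : m ≤ P.card := by omega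
  choose Ap hAp using exists_rp P m hm
  choose Am hAm using exists_rm P m hm
  rcases Nat.eq_zero_or_pos m with rfl | hm0
  · simp
  have step : ∀ α β, α < β → (∀ σ ∈ slopes P, σ ≤ α ∨ β ≤ σ) → Ap α = Am β := by
    intro α β hαβ hno
    refine isLow_unique (rm_asymm β) ⟨(hAp α).1, (hAp α).2.1, fun a ha b hb hbA => ?_⟩ (hAm β)
    exact rm_of_rp hx hαβ hno ((hAp α).1 ha) hb (fun h => hbA (h ▸ ha))
      ((hAp α).2.2 a ha b hb hbA)
  have chain : ∀ k α β, ((slopes P).filter fun σ => α < σ ∧ σ < β).card = k → α < β →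
      (∀ σ ∈ slopes P, α < σ → σ < β → Am σ = Ap σ) → Ap α = Am β := by
    intro k
    induction k using Nat.strong_induction_on with
    | _ k ih =>
      intro α β hk hαβ hno
      by_cases hex : ∃ τ ∈ slopes P, α < τ ∧ τ < β
      · obtain ⟨τ, hτ, h1, h2⟩ := hex
        have hmem : τ ∈ (slopes P).filter fun σ => α < σ ∧ σ < β := mem_filter.mpr ⟨hτ, h1, h2⟩
        have e1 := ih _ (hk ▸ card_lt_card ⟨fun σ hσ => mem_filter.mpr ⟨(mem_filter.mp hσ).1,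
          (mem_filter.mp hσ).2.1, (mem_filter.mp hσ).2.2.trans h2⟩,
          fun h => lt_irrefl τ (mem_filter.mp (h hmem)).2.2⟩) α τ rfl h1
          (fun σ hσ a b => hno σ hσ a (b.trans h2))
        have e2 := ih _ (hk ▸ card_lt_card ⟨fun σ hσ => mem_filter.mpr ⟨(mem_filter.mp hσ).1,
          h1.trans (mem_filter.mp hσ).2.1, (mem_filter.mp hσ).2.2⟩,
          fun h => lt_irrefl τ (mem_filter.mp (h hmem)).2.1⟩) τ β rfl h2
          (fun σ hσ a b => hno σ hσ (h1.trans a) b)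
        rw [e1, hno τ hτ h1 h2, e2]
      · refine step α β hαβ fun σ hσ => ?_
        by_contra hc
        push Not at hc
        exact hex ⟨σ, hσ, hc⟩
  have chain' : ∀ α β, α < β → (∀ σ ∈ slopes P, α < σ → σ < β → Am σ = Ap σ) →
      Ap α = Am β := fun α β => chain _ α β rfl
  have hne : (slopes P).Nonempty := card_pos.mp (by omega)
  obtain ⟨lo, hlo⟩ : ∃ lo, ∀ σ ∈ slopes P, lo < σ :=
    ⟨(slopes P).min' hne - 1, fun σ hσ => by linarith [min'_le _ σ hσ]⟩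
  obtain ⟨hi, hhi⟩ : ∃ hi, ∀ σ ∈ slopes P, σ < hi :=
    ⟨(slopes P).max' hne + 1, fun σ hσ => by linarith [le_max' _ σ hσ]⟩
  have hlohi : lo < hi := by
    obtain ⟨σ, hσ⟩ := hne
    exact (hlo σ hσ).trans (hhi σ hσ)
  set A₀ := Ap lo with hA₀
  have hA₀P : A₀ ⊆ P := (hAp lo).1
  have hA₀c : A₀.card = m := (hAp lo).2.1
  have hend : Am hi = P \ A₀ := by
    refine isLow_unique (rm_asymm hi) (hAm hi) ⟨sdiff_subset, ?_, fun b hb a ha hab => ?_⟩
    · rw [card_sdiff_of_subset hA₀P]; omega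
    · obtain ⟨hbP, hbA⟩ := mem_sdiff.mp hb
      have haA : a ∈ A₀ := by
        by_contra hc
        exact hab (mem_sdiff.mpr ⟨ha, hc⟩)
      have hab' : a ≠ b := fun h => hbA (h ▸ haA)
      have hu : b.1 - a.1 ≠ 0 := fun h => hab' (hx a ha b hbP (by linarith))
      have h1 := ht_sub lo a b hu
      have h2 := ht_sub hi a b hu
      have h3 := hlo _ (slp_mem ha hbP hab')
      have h4 := hhi _ (slp_mem ha hbP hab')
      have hpos : 0 < b.1 - a.1 := by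
        rcases (hAp lo).2.2 a haA b hbP hbA with h | h
        · by_contra hc
          have : b.1 - a.1 ≤ 0 := not_lt.mp hc
          nlinarith
        · exfalso
          have : (b.1 - a.1) * (slp a b - lo) = 0 := by linarith [h.1]
          rcases mul_eq_zero.mp this with h' | h'
          · exact hu h'
          · linarith
      left
      nlinarith
  let C := (slopes P).filter fun σ => Am σ ≠ Ap σ
  have hCne : C.Nonempty := by
    by_contra hc
    rw [not_nonempty_iff_eq_empty] at hc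
    have : Ap lo = Am hi := chain' lo hi hlohi fun σ hσ _ _ => by
      by_contra h
      have : σ ∈ C := mem_filter.mpr ⟨hσ, h⟩
      rw [hc] at this
      exact notMem_empty _ this
    rw [hend, ← hA₀] at this
    obtain ⟨a, ha⟩ := card_pos.mp (hA₀c ▸ hm0 : 0 < A₀.card)
    exact (mem_sdiff.mp (this ▸ ha : a ∈ P \ A₀)).2 ha
  let D : ℝ → ℕ := fun σ => (Ap σ \ Am σ).card
  have htouch : ∀ σ ∈ C, 0 < D σ ∧ Touch P (Am σ) σ (D σ) ∧ Touch P (Ap σ) σ (D σ) := by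
    intro σ hσ
    refine touch_of_ne (hAm σ).1 (hAp σ).1 (by rw [(hAm σ).2.1, (hAp σ).2.1])
      (mem_filter.mp hσ).2 (fun a ha b hb hbA => ?_) (fun a ha b hb hbA => ?_)
    · rcases (hAm σ).2.2 a ha b hb hbA with h | h
      · exact h.le
      · exact h.1.le
    · rcases (hAp σ).2.2 a ha b hb hbA with h | h
      · exact h.le
      · exact h.1.le
  have nocross : ∀ σ ∈ slopes P, σ ∉ C → Am σ = Ap σ := fun σ hσ h => by
    by_contra h'
    exact h (mem_filter.mpr ⟨hσ, h'⟩)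
  obtain ⟨s₁, hs₁, hs₁min⟩ := exists_min_image C id hCne
  obtain ⟨s₂, hs₂, hs₂max⟩ := exists_max_image C id hCne
  simp only [id] at hs₁min hs₂max
  have first : Am s₁ = A₀ := (chain' lo s₁ (hlo _ (mem_filter.mp hs₁).1) fun σ hσ _ h =>
    nocross σ hσ fun hc => absurd (hs₁min σ hc) (not_le.mpr h)).symm
  have last : Ap s₂ = P \ A₀ := (chain' s₂ hi (hhi _ (mem_filter.mp hs₂).1) fun σ hσ h _ =>
    nocross σ hσ fun hc => absurd (hs₂max σ hc) (not_le.mpr h)).trans hend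
  have main : ∀ k, ∀ σ ∈ C, (C.filter fun τ => τ < σ).card = k →
      2 * (Ap σ \ A₀).card + 1 ≤
        ((slopes P).filter fun τ => s₁ ≤ τ ∧ τ ≤ σ).card + D s₁ + D σ := by
    intro k
    induction k using Nat.strong_induction_on with
    | _ k ih =>
      intro σ hσ hk
      by_cases hex : (C.filter fun τ => τ < σ).Nonempty
      · obtain ⟨τ, hτ, hτmax⟩ := exists_max_image _ id hex
        simp only [id] at hτmax
        obtain ⟨hτC, hτσ⟩ := mem_filter.mp hτ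
        have e1 := ih _ (hk ▸ card_lt_card ⟨fun ρ hρ => mem_filter.mpr ⟨(mem_filter.mp hρ).1,
          (mem_filter.mp hρ).2.trans hτσ⟩,
          fun h => lt_irrefl τ (mem_filter.mp (h hτ)).2⟩) τ hτC rfl
        have e2 : Ap τ = Am σ := chain' τ σ hτσ fun ρ hρ h1 h2 =>
          nocross ρ hρ fun hc => absurd (hτmax ρ (mem_filter.mpr ⟨hc, h2⟩)) (not_le.mpr h1)
        have e3 := between hx (hAp τ).1 hτσ (htouch τ hτC).1 (htouch σ hσ).1
          (htouch τ hτC).2.2 (e2 ▸ (htouch σ hσ).2.1)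
        have e4 : (Ap σ \ A₀).card ≤ (Ap τ \ A₀).card + D σ := by
          refine le_trans (card_le_card ?_) (card_union_le _ _)
          intro a ha
          obtain ⟨ha1, ha2⟩ := mem_sdiff.mp ha
          by_cases h : a ∈ Ap τ
          · exact mem_union_left _ (mem_sdiff.mpr ⟨h, ha2⟩)
          · exact mem_union_right _ (mem_sdiff.mpr ⟨ha1, e2 ▸ h⟩)
        have e5 : ((slopes P).filter fun ρ => s₁ ≤ ρ ∧ ρ ≤ τ).card +
            ((slopes P).filter fun ρ => τ < ρ ∧ ρ < σ).card + 1 ≤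
            ((slopes P).filter fun ρ => s₁ ≤ ρ ∧ ρ ≤ σ).card := by
          have hd : Disjoint ((slopes P).filter fun ρ => s₁ ≤ ρ ∧ ρ ≤ τ)
              ((slopes P).filter fun ρ => τ < ρ ∧ ρ < σ) :=
            disjoint_filter.mpr fun ρ _ h1 h2 => absurd h1.2 (not_le.mpr h2.1)
          rw [← card_union_of_disjoint hd]
          have hst := hs₁min τ hτC
          refine card_lt_card ⟨fun ρ hρ => ?_, fun h => ?_⟩
          · rcases mem_union.mp hρ with h | h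
            · obtain ⟨h0, h1, h2⟩ := mem_filter.mp h
              exact mem_filter.mpr ⟨h0, h1, h2.trans hτσ.le⟩
            · obtain ⟨h0, h1, h2⟩ := mem_filter.mp h
              exact mem_filter.mpr ⟨h0, hst.trans h1.le, h2.le⟩
          · have := h (mem_filter.mpr ⟨(mem_filter.mp hσ).1, hst.trans hτσ.le, le_rfl⟩)
            rcases mem_union.mp this with h | h
            · exact absurd (mem_filter.mp h).2.2 (not_le.mpr hτσ)
            · exact lt_irrefl _ (mem_filter.mp h).2.2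
        omega
      · have : σ = s₁ := by
          refine le_antisymm ?_ (hs₁min σ hσ)
          by_contra hc
          exact hex ⟨s₁, mem_filter.mpr ⟨hs₁, not_le.mp hc⟩⟩
        subst this
        have e1 : 0 < ((slopes P).filter fun τ => σ ≤ τ ∧ τ ≤ σ).card :=
          card_pos.mpr ⟨σ, mem_filter.mpr ⟨(mem_filter.mp hσ).1, le_rfl, le_rfl⟩⟩
        have e2 : D σ = (Ap σ \ A₀).card := by rw [← first]
        omega
  have hfin := main _ s₂ hs₂ rfl
  have hc2 : (Ap s₂ \ A₀).card = m := by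
    rw [last, Finset.sdiff_idem, card_sdiff_of_subset hA₀P]; omega
  rcases (hs₁min s₂ hs₂).lt_or_eq with hlt | heq
  · have e1 := outside hx hA₀P hlt (htouch s₁ hs₁).1 (htouch s₂ hs₂).1
      (first ▸ (htouch s₁ hs₁).2.1) (last ▸ (htouch s₂ hs₂).2.2)
    have e2 := card_filter_add_card_filter_not (s := slopes P) (fun τ => s₁ ≤ τ ∧ τ ≤ s₂)
    omega
  · exfalso
    subst heq
    have hD : D s₁ = m := by
      show (Ap s₁ \ Am s₁).card = m
      rw [first, hc2]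
    obtain ⟨l, -, -, c₁, c₂⟩ := (htouch s₁ hs₁).2.1
    rw [first, hD] at c₁ c₂
    have f₁ : (A₀.filter fun c => ht s₁ c = l) = A₀ :=
      eq_of_subset_of_card_le (filter_subset _ _) (by omega)
    have f₂ : ((P \ A₀).filter fun c => ht s₁ c = l) = P \ A₀ :=
      eq_of_subset_of_card_le (filter_subset _ _) (by
        rw [card_sdiff_of_subset hA₀P]; omega)
    have hall : ∀ p ∈ P, ht s₁ p = l := by
      intro p hp
      by_cases h : p ∈ A₀
      · rw [← f₁] at h; exact (mem_filter.mp h).2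
      · have : p ∈ P \ A₀ := mem_sdiff.mpr ⟨hp, h⟩
        rw [← f₂] at this; exact (mem_filter.mp this).2
    have : slopes P ⊆ {s₁} := by
      intro σ hσ
      obtain ⟨⟨a, b⟩, hab, rfl⟩ := mem_image.mp hσ
      obtain ⟨ha, hb, hab⟩ := mem_offDiag.mp hab
      have hu : b.1 - a.1 ≠ 0 := fun h => hab (hx a ha b hb (by linarith))
      have h1 := ht_sub s₁ a b hu
      rw [hall a ha, hall b hb, sub_self] at h1
      rcases mul_eq_zero.mp h1.symm with h | h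
      · exact absurd h hu
      · exact mem_singleton.mpr (by linarith)
    have := card_le_card this
    simp only [card_singleton] at this
    omega

/-- Ungar's theorem. -/
theorem ungar (h5 : 5 ≤ P.card) (hnc : 1 < (slopes P).card) : P.card ≤ (slopes P).card + 1 := by
  classical
  rcases Nat.even_or_odd' P.card with ⟨m, hm | hm⟩
  · have := ungar_even hx hm hnc
    omega
  · obtain ⟨σ, hσ, τ, hτ, hστ⟩ := one_lt_card.mp hnc
    obtain ⟨⟨a, b⟩, hab, rfl⟩ := mem_image.mp hσ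
    obtain ⟨⟨c, e⟩, hce, rfl⟩ := mem_image.mp hτ
    obtain ⟨ha, hb, hab⟩ := mem_offDiag.mp hab
    obtain ⟨hc, he, hce⟩ := mem_offDiag.mp hce
    have : ∃ x ∈ P, x ∉ ({a, b, c, e} : Finset (ℝ × ℝ)) := by
      apply exists_mem_notMem_of_card_lt_card
      exact lt_of_le_of_lt card_le_four (by omega)
    obtain ⟨x, hxP, hx4⟩ := this
    simp only [mem_insert, mem_singleton, not_or] at hx4
    have hsub : slopes (P.erase x) ⊆ slopes P :=
      image_subset_image (offDiag_mono (erase_subset _ _))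
    have h1 : 1 < (slopes (P.erase x)).card := one_lt_card.mpr ⟨_, slp_mem
      (mem_erase.mpr ⟨Ne.symm hx4.1, ha⟩) (mem_erase.mpr ⟨Ne.symm hx4.2.1, hb⟩) hab, _, slp_mem
      (mem_erase.mpr ⟨Ne.symm hx4.2.2.1, hc⟩) (mem_erase.mpr ⟨Ne.symm hx4.2.2.2, he⟩) hce, hστ⟩
    have h2 := ungar_even (P := P.erase x) (m := m) (fun p hp q hq =>
      hx p (mem_of_mem_erase hp) q (mem_of_mem_erase hq)) (by rw [card_erase_of_mem hxP]; omega) h1
    have := card_le_card hsub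
    omega

end main

end Pool.Agent.Lib.MP_9f0d12_co
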