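import Pool.Agent.Lib.MP_9f0d12_co.Generic
import Pool.Agent.Lib.MP_9f0d12_co.Ungar
import Pool.Agent.Lib.MP_9f0d12_co.Sample

/-!
The generic norm, positive differences, directions.
-/

open Finset

namespace Pool.Agent.Lib.MP_9f0d12_co

/-- The isolation property of a function `N`, for sets of at most `k` generators. -/
def Iso {d : ℕ} (N : (Fin d → ℝ) → ℝ) (k : ℕ) : Prop :=
  ∀ (U : Finset ℝ) (Z : Finset (Fin d → ℝ)), U.card ≤ k → (∀ z ∈ Z, z ≠ 0) →
    (∀ z ∈ Z, ∀ c, z c ∈ IntermediateField.adjoin ℚ (U : Set ℝ)) →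
    ∃ T ⊆ Z, T.card ≤ 2 * U.card ∧ ∀ z ∈ Z, (∀ t ∈ T, ∀ a : ℝ, z ≠ a • t) →
      ∀ z' ∈ Z, N z = N z' → ∃ a : ℝ, z = a • z'

lemma exists_norm (d k : ℕ) : ∃ N : Seminorm ℝ (Fin d → ℝ), (∀ x, N x = 0 → x = 0) ∧ Iso N k := by
  classical
  obtain ⟨m, hm⟩ : ∃ m : ℕ, m = 2 * (k + 1) := ⟨_, rfl⟩
  have hm0 : m ≠ 0 := by omega
  have hev : Even m := ⟨k + 1, by omega⟩
  obtain ⟨s, hs0, hs⟩ := exists_gen (Grid d m)
  haveI : Fact (1 ≤ (m : ENNReal)) := ⟨by exact_mod_cast Nat.one_le_iff_ne_zero.mpr hm0⟩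
  let A : (Fin d → ℝ) →ₗ[ℝ] PiLp (m : ENNReal) (fun _ : Grid d m => ℝ) :=
    { toFun := fun x => WithLp.toLp _ fun β => s β ^ (1 / (m : ℝ)) * lin β x
      map_add' := by
        intro x y
        ext β
        simp [lin, mul_add, sum_add_distrib]
      map_smul' := by
        intro c x
        ext β
        simp only [lin, Pi.smul_apply, smul_eq_mul, RingHom.id_apply, PiLp.smul_apply, mul_sum]
        exact sum_congr rfl fun i _ => by ring }
  let N : Seminorm ℝ (Fin d → ℝ) := (normSeminorm ℝ _).comp A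
  have hterm : ∀ β x, 0 ≤ s β * (lin β x) ^ m := fun β x =>
    mul_nonneg (hs0 β).le (hev.pow_nonneg _)
  have hF : ∀ x, 0 ≤ form s x := fun x => sum_nonneg fun β _ => hterm β x
  have hN : ∀ x, N x = (form s x) ^ (1 / (m : ℝ)) := by
    intro x
    have : N x = ‖A x‖ := rfl
    rw [this, PiLp.norm_eq_of_nat m rfl]
    congr 1
    refine sum_congr rfl fun β _ => ?_
    have h1 : (A x) β = s β ^ (1 / (m : ℝ)) * lin β x := rfl
    rw [h1, Real.norm_eq_abs, hev.pow_abs, mul_pow, one_div, Real.rpow_inv_natCast_pow (hs0 β).le hm0]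
  have hNm : ∀ x, N x ^ m = form s x := by
    intro x
    rw [hN, one_div, Real.rpow_inv_natCast_pow (hF x) hm0]
  refine ⟨N, fun x hx => ?_, fun U Z hU hZ0 hZ => ?_⟩
  · have h0 : form s x = 0 := by rw [← hNm, hx, zero_pow hm0]
    have h1 := (sum_eq_zero_iff_of_nonneg fun β _ => hterm β x).mp h0
    funext c
    let β : Grid d m := fun i => if i = c then ⟨1, by omega⟩ else 0
    have h2 : lin β x = x c := by
      unfold lin
      rw [Finset.sum_eq_single c] <;> simp +contextual [β]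
    have h3 := h1 β (mem_univ _)
    rw [h2] at h3
    rcases mul_eq_zero.mp h3 with h | h
    · exact absurd h (hs0 β).ne'
    · exact (pow_eq_zero_iff hm0).mp h
  · obtain ⟨T, hTZ, hTc, hT⟩ := isolate s hs U Z (by omega) hZ0 hZ
    refine ⟨T, hTZ, hTc, fun z hz hzT z' hz' h => hT z hz hzT z' hz' ?_⟩
    rw [← hNm, ← hNm, h]

lemma exists_generic {d : ℕ} (Z : Finset (Fin d → ℝ)) (hZ : ∀ z ∈ Z, z ≠ 0) :
    ∃ φ : Fin d → ℝ, ∀ z ∈ Z, φ ⬝ᵥ z ≠ 0 := by
  classical
  induction Z using Finset.induction_on with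
  | empty => exact ⟨0, by simp⟩
  | insert z Z hz ih =>
    obtain ⟨φ, hφ⟩ := ih fun t ht => hZ t (mem_insert_of_mem ht)
    obtain ⟨τ, hτ⟩ := Infinite.exists_notMem_finset
      ((insert z Z).image fun t => -(φ ⬝ᵥ t) / (z ⬝ᵥ t))
    refine ⟨φ + τ • z, fun t ht h => ?_⟩
    rw [add_dotProduct, smul_dotProduct, smul_eq_mul] at h
    by_cases hzt : z ⬝ᵥ t = 0
    · rcases mem_insert.mp ht with rfl | ht'
      · exact hZ t ht (dotProduct_self_eq_zero.mp hzt)
      · rw [hzt, mul_zero, add_zero] at h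
        exact hφ t ht' h
    · refine hτ (mem_image.mpr ⟨t, ht, ?_⟩)
      field_simp
      linarith

variable {d : ℕ}

/-- differences on which the functional is positive -/
noncomputable def Zp (φ : Fin d → ℝ) (P : Finset (Fin d → ℝ)) : Finset (Fin d → ℝ) :=
  ((P ×ˢ P).filter fun e => 0 < φ ⬝ᵥ (e.1 - e.2)).image fun e => e.1 - e.2

lemma mem_Zp {φ : Fin d → ℝ} {P : Finset (Fin d → ℝ)} {z : Fin d → ℝ} :
    z ∈ Zp φ P ↔ ∃ x ∈ P, ∃ y ∈ P, 0 < φ ⬝ᵥ (x - y) ∧ x - y = z := by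
  simp only [Zp, mem_image, mem_filter, mem_product, Prod.exists]
  constructor
  · rintro ⟨x, y, ⟨⟨hx, hy⟩, h⟩, rfl⟩
    exact ⟨x, hx, y, hy, h, rfl⟩
  · rintro ⟨x, hx, y, hy, h, rfl⟩
    exact ⟨x, y, ⟨⟨hx, hy⟩, h⟩, rfl⟩

lemma Zp_pos {φ : Fin d → ℝ} {P : Finset (Fin d → ℝ)} {z : Fin d → ℝ} (h : z ∈ Zp φ P) :
    0 < φ ⬝ᵥ z := by
  obtain ⟨x, -, y, -, h', rfl⟩ := mem_Zp.mp h
  exact h'

/-- normalised direction -/
noncomputable def dir (φ z : Fin d → ℝ) : Fin d → ℝ := (φ ⬝ᵥ z)⁻¹ • z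

lemma dir_smul (φ z : Fin d → ℝ) {a : ℝ} (ha : a ≠ 0) : dir φ (a • z) = dir φ z := by
  unfold dir
  rw [dotProduct_smul, smul_eq_mul, smul_smul, mul_inv, mul_comm a⁻¹, mul_assoc,
    inv_mul_cancel₀ ha, mul_one]

lemma eq_smul_dir {φ z : Fin d → ℝ} (h : φ ⬝ᵥ z ≠ 0) : z = (φ ⬝ᵥ z) • dir φ z := by
  unfold dir
  rw [smul_smul, mul_inv_cancel₀ h, one_smul]

lemma dot_dir {φ z : Fin d → ℝ} (h : φ ⬝ᵥ z ≠ 0) : φ ⬝ᵥ dir φ z = 1 := by
  unfold dir
  rw [dotProduct_smul, smul_eq_mul, inv_mul_cancel₀ h]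

section norm

variable {N : (Fin d → ℝ) → ℝ} (hN1 : ∀ (c : ℝ) x, N (c • x) = |c| * N x)
  (hN0 : ∀ x, N x = 0 → x = 0) {φ : Fin d → ℝ}
include hN1 hN0

lemma eq_of_dir {z z' : Fin d → ℝ} (hz : 0 < φ ⬝ᵥ z) (hz' : 0 < φ ⬝ᵥ z')
    (hd : dir φ z = dir φ z') (hN : N z = N z') : z = z' := by
  have e1 := eq_smul_dir hz.ne'
  have e2 := eq_smul_dir hz'.ne'
  have h0 : N (dir φ z') ≠ 0 := fun h => by
    have := dot_dir hz'.ne'
    rw [hN0 _ h] at this
    simp at this
  rw [e1, e2, hN1, hN1, hd, abs_of_pos hz, abs_of_pos hz'] at hN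
  have := mul_right_cancel₀ h0 hN
  rw [e1, e2, hd, this]

lemma iso_dir {k : ℕ} (hI : Iso N k) (U : Finset ℝ) (Z : Finset (Fin d → ℝ)) (hU : U.card ≤ k)
    (hpos : ∀ z ∈ Z, 0 < φ ⬝ᵥ z)
    (hZ : ∀ z ∈ Z, ∀ c, z c ∈ IntermediateField.adjoin ℚ (U : Set ℝ)) :
    ∃ T : Finset (Fin d → ℝ), T.card ≤ 2 * U.card ∧
      ∀ z ∈ Z, dir φ z ∉ T → ∀ z' ∈ Z, N z = N z' → z = z' := by
  classical
  have h0 : ∀ z ∈ Z, z ≠ 0 := fun z hz h => by simpa [h] using hpos z hz
  obtain ⟨T, hTZ, hTc, hT⟩ := hI U Z hU h0 hZ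
  refine ⟨T.image (dir φ), card_image_le.trans hTc, fun z hz hzT z' hz' h => ?_⟩
  have par : ∀ t (a : ℝ), z = a • t → dir φ z = dir φ t := by
    intro t a hzt
    have ha : a ≠ 0 := fun h => h0 z hz (by simp [hzt, h])
    rw [hzt, dir_smul _ _ ha]
  obtain ⟨a, ha⟩ := hT z hz (fun t ht a hzt => hzT (mem_image.mpr ⟨t, ht, (par t a hzt).symm⟩))
    z' hz' h
  exact eq_of_dir hN1 hN0 (hpos z hz) (hpos z' hz') (par z' a ha) h

lemma count_one (Z T : Finset (Fin d → ℝ)) (hpos : ∀ z ∈ Z, 0 < φ ⬝ᵥ z)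
    (hT : ∀ z ∈ Z, dir φ z ∉ T → ∀ z' ∈ Z, N z = N z' → z = z') (δ : Fin d → ℝ) :
    (Z.filter fun z => dir φ z = δ).card + (Z.image (dir φ)).card ≤
      (Z.image N).card + T.card + 1 := by
  classical
  let Y₁ := Z.filter fun z => dir φ z = δ
  let Y₂ := Z.filter fun z => dir φ z ∉ insert δ T
  have hd : Disjoint Y₁ Y₂ := disjoint_filter.mpr fun z _ h1 h2 => h2 (h1 ▸ mem_insert_self _ _)
  have hinj : Set.InjOn N (Y₁ ∪ Y₂ : Finset _) := by
    intro z hz z' hz' h
    rcases mem_union.mp hz with hz | hz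
    · rcases mem_union.mp hz' with hz' | hz'
      · obtain ⟨a, b⟩ := mem_filter.mp hz
        obtain ⟨a', b'⟩ := mem_filter.mp hz'
        exact eq_of_dir hN1 hN0 (hpos z a) (hpos z' a') (b.trans b'.symm) h
      · obtain ⟨a', b'⟩ := mem_filter.mp hz'
        exact (hT z' a' (fun hc => b' (mem_insert_of_mem hc)) z (mem_filter.mp hz).1 h.symm).symm
    · obtain ⟨a, b⟩ := mem_filter.mp hz
      refine hT z a (fun hc => b (mem_insert_of_mem hc)) z' ?_ h
      rcases mem_union.mp hz' with hz' | hz' <;> exact (mem_filter.mp hz').1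
  have h1 : (Y₁ ∪ Y₂).card ≤ (Z.image N).card := by
    rw [← card_image_of_injOn hinj]
    exact card_le_card (image_subset_image (union_subset (filter_subset _ _) (filter_subset _ _)))
  rw [card_union_of_disjoint hd] at h1
  have h2 : Z.image (dir φ) ⊆ Y₂.image (dir φ) ∪ insert δ T := by
    intro v hv
    obtain ⟨z, hz, rfl⟩ := mem_image.mp hv
    by_cases h : dir φ z ∈ insert δ T
    · exact mem_union_right _ h
    · exact mem_union_left _ (mem_image_of_mem _ (mem_filter.mpr ⟨hz, h⟩))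
  have h3 := (card_le_card h2).trans (card_union_le _ _)
  have h4 : (Y₂.image (dir φ)).card ≤ Y₂.card := card_image_le
  have h5 := card_insert_le δ T
  show Y₁.card + _ ≤ _
  omega

omit hN1 hN0 in
lemma count_two (Z T : Finset (Fin d → ℝ))
    (hT : ∀ z ∈ Z, dir φ z ∉ T → ∀ z' ∈ Z, N z = N z' → z = z') (B : ℕ)
    (hB : ∀ δ, (Z.filter fun z => dir φ z = δ).card ≤ B) :
    Z.card ≤ (Z.image N).card + T.card * B := by
  classical
  rw [← card_filter_add_card_filter_not (s := Z) (fun z => dir φ z ∉ T)]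
  refine add_le_add ?_ ?_
  · rw [← card_image_of_injOn (f := N) fun z hz z' hz' h =>
      hT z (mem_filter.mp hz).1 (mem_filter.mp hz).2 z' (mem_filter.mp hz').1 h]
    exact card_le_card (image_subset_image (filter_subset _ _))
  · have : (Z.filter fun z => ¬ dir φ z ∉ T) ⊆
        T.biUnion fun δ => Z.filter fun z => dir φ z = δ := by
      intro z hz
      obtain ⟨a, b⟩ := mem_filter.mp hz
      exact mem_biUnion.mpr ⟨_, not_not.mp b, mem_filter.mpr ⟨a, rfl⟩⟩
    exact (card_le_card this).trans (card_biUnion_le_card_mul _ _ _ fun δ _ => hB δ)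

end norm

section generic

variable {φ : Fin d → ℝ} {P : Finset (Fin d → ℝ)}
  (hφ : ∀ x ∈ P, ∀ y ∈ P, φ ⬝ᵥ x = φ ⬝ᵥ y → x = y)
include hφ

lemma card_Zp_ge (hP : P.Nonempty) : P.card ≤ (Zp φ P).card + 1 := by
  classical
  obtain ⟨a, ha, hmin⟩ := exists_min_image P (fun x => φ ⬝ᵥ x) hP
  have : (P.erase a).image (fun x => x - a) ⊆ Zp φ P := by
    intro z hz
    obtain ⟨x, hx, rfl⟩ := mem_image.mp hz
    obtain ⟨hxa, hx⟩ := mem_erase.mp hx
    refine mem_Zp.mpr ⟨x, hx, a, ha, ?_, rfl⟩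
    rw [dotProduct_sub, sub_pos]
    exact lt_of_le_of_ne (hmin x hx) fun h => hxa (hφ a ha x hx h).symm
  have h1 := card_le_card this
  rw [card_image_of_injective _ (sub_left_injective), card_erase_of_mem ha] at h1
  omega

lemma dirs_ge (h5 : 5 ≤ P.card) (h2 : 1 < ((Zp φ P).image (dir φ)).card) :
    P.card ≤ ((Zp φ P).image (dir φ)).card + 1 := by
  classical
  obtain ⟨δ, hδ, δ', hδ', hne⟩ := one_lt_card.mp h2
  obtain ⟨c, hc⟩ := Function.ne_iff.mp hne
  let π : (Fin d → ℝ) → ℝ × ℝ := fun x => (φ ⬝ᵥ x, x c)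
  have hπ : Set.InjOn π P := fun x hx y hy h => hφ x hx y hy (congrArg Prod.fst h)
  have hcard : (P.image π).card = P.card := card_image_of_injOn hπ
  have hs : ∀ x y, slp (π y) (π x) = dir φ (x - y) c := by
    intro x y
    simp only [slp, π, dir, Pi.smul_apply, Pi.sub_apply, smul_eq_mul, dotProduct_sub]
    rw [div_eq_inv_mul]
  have hs' : ∀ x y, slp (π x) (π y) = dir φ (x - y) c := by
    intro x y
    rw [hs, ← neg_sub, ← neg_one_smul ℝ, dir_smul _ _ (by norm_num)]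
  have hin : ∀ δ ∈ (Zp φ P).image (dir φ), δ c ∈ slopes (P.image π) := by
    intro δ hδ
    obtain ⟨z, hz, rfl⟩ := mem_image.mp hδ
    obtain ⟨x, hx, y, hy, h, rfl⟩ := mem_Zp.mp hz
    rw [← hs']
    refine slp_mem (mem_image_of_mem _ hx) (mem_image_of_mem _ hy) fun h' => ?_
    rw [hπ hx hy h'] at h
    simp at h
  have hout : slopes (P.image π) ⊆ ((Zp φ P).image (dir φ)).image fun δ => δ c := by
    intro σ hσ
    obtain ⟨⟨p, q⟩, hpq, rfl⟩ := mem_image.mp hσ
    obtain ⟨hp, hq, hpq⟩ := mem_offDiag.mp hpq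
    obtain ⟨x, hx, rfl⟩ := mem_image.mp hp
    obtain ⟨y, hy, rfl⟩ := mem_image.mp hq
    have hne : φ ⬝ᵥ x ≠ φ ⬝ᵥ y := fun h => hpq (by rw [hφ x hx y hy h])
    rcases lt_or_gt_of_ne hne with h | h
    · exact mem_image.mpr ⟨_, mem_image_of_mem _ (mem_Zp.mpr ⟨y, hy, x, hx,
        by rw [dotProduct_sub]; linarith, rfl⟩), (hs y x).symm⟩
    · exact mem_image.mpr ⟨_, mem_image_of_mem _ (mem_Zp.mpr ⟨x, hx, y, hy,
        by rw [dotProduct_sub]; linarith, rfl⟩), (hs' x y).symm⟩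
  have hU := ungar (P := P.image π) (by
    intro p hp q hq h
    obtain ⟨x, hx, rfl⟩ := mem_image.mp hp
    obtain ⟨y, hy, rfl⟩ := mem_image.mp hq
    rw [hφ x hx y hy h]) (by omega) (one_lt_card.mpr ⟨_, hin δ hδ, _, hin δ' hδ', hc⟩)
  have := (card_le_card hout).trans card_image_le
  omega

lemma chains (h2 : 2 ≤ P.card) (B : ℕ)
    (hB : ∀ δ, ((Zp φ P).filter fun z => dir φ z = δ).card ≤ B) :
    ∃ s : ℕ, P.card + s ≤ (Zp φ P).card + 2 ∧ P.card ≤ s * (B + 1) := by
  classical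
  obtain ⟨a, ha, hmin⟩ := exists_min_image P (fun x => φ ⬝ᵥ x) (card_pos.mp (by omega))
  obtain ⟨b, hb, hmin'⟩ := exists_min_image (P.erase a) (fun x => φ ⬝ᵥ x)
    (card_pos.mp (by rw [card_erase_of_mem ha]; omega))
  obtain ⟨hba, hb⟩ := mem_erase.mp hb
  have lt1 : ∀ x ∈ P, x ≠ a → 0 < φ ⬝ᵥ (x - a) := fun x hx hxa => by
    rw [dotProduct_sub, sub_pos]
    exact lt_of_le_of_ne (hmin x hx) fun h => hxa (hφ a ha x hx h).symm
  have lt2 : ∀ x ∈ P, x ≠ a → x ≠ b → 0 < φ ⬝ᵥ (x - b) := fun x hx hxa hxb => by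
    rw [dotProduct_sub, sub_pos]
    exact lt_of_le_of_ne (hmin' x (mem_erase.mpr ⟨hxa, hx⟩)) fun h => hxb (hφ b hb x hx h).symm
  obtain ⟨v, hv⟩ : ∃ v, v = b - a := ⟨_, rfl⟩
  have hvpos : 0 < φ ⬝ᵥ v := hv ▸ lt1 b hb hba
  let St := P.filter fun x => x - v ∉ P
  refine ⟨St.card, ?_, ?_⟩
  · have hsub : (P.erase a).image (fun x => x - a) ∪ (St.erase a).image (fun x => x - b) ⊆
        Zp φ P := by
      intro z hz
      rcases mem_union.mp hz with hz | hz
      · obtain ⟨x, hx, rfl⟩ := mem_image.mp hz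
        obtain ⟨hxa, hx⟩ := mem_erase.mp hx
        exact mem_Zp.mpr ⟨x, hx, a, ha, lt1 x hx hxa, rfl⟩
      · obtain ⟨x, hx, rfl⟩ := mem_image.mp hz
        obtain ⟨hxa, hx⟩ := mem_erase.mp hx
        obtain ⟨hx, hxv⟩ := mem_filter.mp hx
        refine mem_Zp.mpr ⟨x, hx, b, hb, lt2 x hx hxa fun h => hxv ?_, rfl⟩
        rw [h, hv]
        simpa using ha
    have hd : Disjoint ((P.erase a).image (fun x => x - a))
        ((St.erase a).image (fun x => x - b)) := by
      refine disjoint_left.mpr fun z h1 h2 => ?_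
      obtain ⟨y, hy, rfl⟩ := mem_image.mp h1
      obtain ⟨x, hx, hxy⟩ := mem_image.mp h2
      apply (mem_filter.mp (mem_erase.mp hx).2).2
      have : x - v = y := by
        rw [hv]
        calc x - (b - a) = (x - b) + a := by abel
          _ = y := by rw [hxy]; abel
      rw [this]
      exact (mem_erase.mp hy).2
    have h1 := card_le_card hsub
    rw [card_union_of_disjoint hd, card_image_of_injective _ sub_left_injective,
      card_image_of_injective _ sub_left_injective, card_erase_of_mem ha] at h1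
    have := pred_card_le_card_erase (s := St) (a := a)
    omega
  · have hinj : ∀ x, Function.Injective fun t : ℕ => x - (t : ℝ) • v := by
      intro x t t' h
      have := congrArg (fun z => φ ⬝ᵥ z) h
      simp only [dotProduct_sub, dotProduct_smul, smul_eq_mul, sub_right_inj] at this
      exact_mod_cast mul_right_cancel₀ hvpos.ne' this
    have hsub : P ⊆ (St ×ˢ range (B + 1)).image fun q => q.1 + (q.2 : ℝ) • v := by
      intro x hx
      have hex : ∃ t : ℕ, x - ((t + 1 : ℕ) : ℝ) • v ∉ P := by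
        by_contra hc
        push Not at hc
        have : Set.range (fun t : ℕ => x - ((t + 1 : ℕ) : ℝ) • v) ⊆ (P : Set _) := by
          rintro _ ⟨t, rfl⟩
          exact hc t
        exact Set.infinite_range_of_injective ((hinj x).comp (add_left_injective 1))
          (P.finite_toSet.subset this)
      have hall : ∀ i ≤ Nat.find hex, x - (i : ℝ) • v ∈ P := by
        intro i hi
        rcases i with _ | j
        · simpa using hx
        · exact not_not.mp (Nat.find_min hex (by omega))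
      have hspec := Nat.find_spec hex
      set t := Nat.find hex
      have htB : t ≤ B := by
        refine le_trans ?_ (hB (dir φ v))
        have : (Icc 1 t).image (fun i : ℕ => (i : ℝ) • v) ⊆
            (Zp φ P).filter fun z => dir φ z = dir φ v := by
          intro z hz
          obtain ⟨i, hi, rfl⟩ := mem_image.mp hz
          obtain ⟨h1, h2⟩ := mem_Icc.mp hi
          have hi0 : (0 : ℝ) < i := by exact_mod_cast h1
          refine mem_filter.mpr ⟨mem_Zp.mpr ⟨x, hx, _, hall i h2, ?_, by simp⟩,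
            dir_smul _ _ hi0.ne'⟩
          simp only [sub_sub_cancel, dotProduct_smul, smul_eq_mul]
          positivity
        have h1 := card_le_card this
        rw [card_image_of_injective] at h1
        · simpa using h1
        · intro i j h
          exact hinj 0 (by simp only [h])
      refine mem_image.mpr ⟨(x - (t : ℝ) • v, t), mem_product.mpr
        ⟨mem_filter.mpr ⟨hall t le_rfl, ?_⟩, mem_range.mpr (by omega)⟩, by simp⟩
      have : x - (t : ℝ) • v - v = x - ((t + 1 : ℕ) : ℝ) • v := by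
        push_cast
        rw [add_smul, one_smul]
        abel
      rw [this]
      exact hspec
    have := (card_le_card hsub).trans card_image_le
    rwa [card_product, card_range] at this

lemma card_sub_le : (open scoped Pointwise in (P - P).card) ≤ 2 * (Zp φ P).card + 1 := by
  classical
  have : (open scoped Pointwise in P - P) ⊆ insert 0 (Zp φ P ∪ (Zp φ P).image fun z => -z) := by
    intro z hz
    obtain ⟨x, hx, y, hy, rfl⟩ := Finset.mem_sub.mp hz
    rcases lt_trichotomy (φ ⬝ᵥ x) (φ ⬝ᵥ y) with h | h | h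
    · exact mem_insert_of_mem (mem_union_right _ (mem_image.mpr ⟨y - x,
        mem_Zp.mpr ⟨y, hy, x, hx, by rw [dotProduct_sub]; linarith, rfl⟩, by simp⟩))
    · rw [hφ x hx y hy h]
      simp
    · exact mem_insert_of_mem (mem_union_left _
        (mem_Zp.mpr ⟨x, hx, y, hy, by rw [dotProduct_sub]; linarith, rfl⟩))
  have h1 := (card_le_card this).trans (card_insert_le _ _)
  have h2 := card_union_le (Zp φ P) ((Zp φ P).image fun z => -z)
  have h3 : ((Zp φ P).image fun z => -z).card ≤ (Zp φ P).card := card_image_le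
  omega

end generic

end Pool.Agent.Lib.MP_9f0d12_co
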