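import Mathlib

/-!
Generic weights (algebraically independent positive reals) and independence of powers of
linear forms.
-/

open Finset

namespace Pool.Agent.Lib.MP_9f0d12_co

/-- A family of reals that is not contained in a field generated by fewer reals. -/
def Gen {ι : Type} [Fintype ι] (s : ι → ℝ) : Prop :=
  ∀ S : Finset ℝ, (∀ i, s i ∈ IntermediateField.adjoin ℚ (S : Set ℝ)) → Fintype.card ι ≤ S.card

lemma alg_of_mem_adjoin (S : Set ℝ) (x : ℝ) (hx : x ∈ IntermediateField.adjoin ℚ S) :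
    IsAlgebraic (Algebra.adjoin ℚ S) x := by
  induction hx using IntermediateField.adjoin_induction with
  | mem x hx => exact isAlgebraic_algebraMap (⟨x, Algebra.subset_adjoin hx⟩ : Algebra.adjoin ℚ S)
  | algebraMap x =>
    exact isAlgebraic_algebraMap (⟨algebraMap ℚ ℝ x, Subalgebra.algebraMap_mem _ x⟩ :
      Algebra.adjoin ℚ S)
  | add x y _ _ hx hy => exact hx.add hy
  | inv x _ hx => exact hx.inv
  | mul x y _ _ hx hy => exact hx.mul hy

lemma gen_of_indep {ι : Type} [Fintype ι] (x : ι → ℝ) (hx : AlgebraicIndependent ℚ x) :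
    Gen x := by
  intro S hS
  have hI : (AlgebraicIndependent.matroid ℚ ℝ).Indep (Set.range x) := by
    rw [AlgebraicIndependent.matroid_indep_iff]
    exact hx.to_subtype_range
  have hsub : Set.range x ⊆ (AlgebraicIndependent.matroid ℚ ℝ).closure (S : Set ℝ) := by
    rintro _ ⟨i, rfl⟩
    rw [AlgebraicIndependent.matroid_closure_eq]
    exact alg_of_mem_adjoin _ _ (hS i)
  have h1 := hI.encard_le_eRk_of_subset hsub
  rw [Matroid.eRk_closure_eq] at h1
  have h2 := h1.trans (Matroid.eRk_le_encard _ _)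
  have h3 : (Set.range x).encard = (Fintype.card ι : ℕ∞) := by
    rw [← Set.image_univ, hx.injective.injOn.encard_image]
    simp
  rw [h3, Set.encard_coe_eq_coe_finsetCard] at h2
  exact_mod_cast h2

lemma exists_indep (ι : Type) [Fintype ι] : ∃ x : ι → ℝ, AlgebraicIndependent ℚ x := by
  obtain ⟨κ, y, hy⟩ := exists_isTranscendenceBasis' ℚ ℝ
  have hinf : Infinite κ := by
    by_contra hfin
    rw [not_infinite_iff_finite] at hfin
    rcases isEmpty_or_nonempty κ with he | hne
    · have halg : Algebra.IsAlgebraic ℚ ℝ := hy.isEmpty_iff_isAlgebraic.mp he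
      have := Algebra.IsAlgebraic.cardinalMk_le_max ℚ ℝ
      simp only [Cardinal.mk_real, Cardinal.mkRat, max_self] at this
      exact absurd this (not_le.mpr Cardinal.aleph0_lt_continuum)
    · have := hy.lift_cardinalMk_eq_max_lift
      simp only [Cardinal.lift_id, Cardinal.mk_real, Cardinal.mkRat] at this
      have hk : Cardinal.mk κ ≤ Cardinal.aleph0 := (Cardinal.mk_lt_aleph0_iff.mpr hfin).le
      have : Cardinal.continuum ≤ Cardinal.aleph0 := by
        rw [this]; exact sup_le (sup_le le_rfl hk) le_rfl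
      exact absurd this (not_le.mpr Cardinal.aleph0_lt_continuum)
  obtain ⟨e⟩ : Nonempty (ι ↪ κ) := by
    refine ⟨((Fintype.equivFin ι).toEmbedding.trans Fin.valEmbedding).trans
      (Infinite.natEmbedding κ)⟩
  exact ⟨y ∘ e, hy.1.comp e e.injective⟩

lemma exists_gen (ι : Type) [Fintype ι] : ∃ s : ι → ℝ, (∀ i, 0 < s i) ∧ Gen s := by
  obtain ⟨x, hx⟩ := exists_indep ι
  refine ⟨fun i => |x i|, fun i => abs_pos.mpr (hx.ne_zero i), fun S hS => ?_⟩
  apply gen_of_indep x hx S
  intro i
  have := hS i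
  rcases abs_choice (x i) with h | h
  · simpa [h] using this
  · simp only [h] at this
    simpa using neg_mem this

/-- A functional killing `t` but not `z`. -/
lemma exists_kill {d : ℕ} (z t : Fin d → ℝ) (h : ∀ c : ℝ, z ≠ c • t) :
    ∃ ψ : Fin d → ℝ, ψ ⬝ᵥ t = 0 ∧ ψ ⬝ᵥ z ≠ 0 := by
  by_cases ht : t = 0
  · refine ⟨z, by simp [ht], fun hz => h 0 ?_⟩
    simpa using dotProduct_self_eq_zero.mp hz
  · have htt : t ⬝ᵥ t ≠ 0 := fun h => ht (dotProduct_self_eq_zero.mp h)
    have h0 : ((t ⬝ᵥ t) • z - (z ⬝ᵥ t) • t) ⬝ᵥ t = 0 := by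
      simp only [sub_dotProduct, smul_dotProduct, smul_eq_mul]; ring
    refine ⟨(t ⬝ᵥ t) • z - (z ⬝ᵥ t) • t, h0, fun hz => h ((z ⬝ᵥ t) / (t ⬝ᵥ t)) ?_⟩
    have : ((t ⬝ᵥ t) • z - (z ⬝ᵥ t) • t) ⬝ᵥ ((t ⬝ᵥ t) • z - (z ⬝ᵥ t) • t) = 0 := by
      rw [dotProduct_sub, dotProduct_smul, dotProduct_smul, hz, h0]; simp
    have h2 := dotProduct_self_eq_zero.mp this
    have h3 : (t ⬝ᵥ t) • z = (z ⬝ᵥ t) • t := sub_eq_zero.mp h2
    calc z = (t ⬝ᵥ t)⁻¹ • ((t ⬝ᵥ t) • z) := by rw [smul_smul, inv_mul_cancel₀ htt, one_smul]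
      _ = _ := by rw [h3, smul_smul, div_eq_inv_mul]

lemma pow_indep_all {d : ℕ} (z : Fin d → ℝ) (hz : z ≠ 0) (T : Finset (Fin d → ℝ)) :
    ∀ (m : ℕ) (c0 : ℝ) (c : (Fin d → ℝ) → ℝ), T.card ≤ m → (∀ t ∈ T, ∀ a : ℝ, z ≠ a • t) →
      (∀ φ : Fin d → ℝ, c0 * (φ ⬝ᵥ z) ^ m = ∑ t ∈ T, c t * (φ ⬝ᵥ t) ^ m) → c0 = 0 := by
  classical
  induction T using Finset.induction_on with
  | empty =>
    intro m c0 c _ _ h
    have := h z
    simp only [sum_empty, mul_eq_zero] at this
    rcases this with h | h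
    · exact h
    · exact absurd h (pow_ne_zero _ fun h' => hz (dotProduct_self_eq_zero.mp h'))
  | insert t T htT ih =>
    intro m c0 c hcard hpar h
    rw [card_insert_of_notMem htT] at hcard
    obtain ⟨k, rfl⟩ : ∃ k, m = k + 1 := ⟨m - 1, by omega⟩
    obtain ⟨ψ, hψt, hψz⟩ := exists_kill z t (hpar t (mem_insert_self _ _))
    have key := ih k (c0 * ((k + 1 : ℝ) * (ψ ⬝ᵥ z))) (fun u => c u * ((k + 1 : ℝ) * (ψ ⬝ᵥ u)))
      (by omega) (fun u hu => hpar u (mem_insert_of_mem hu)) ?_
    · have hk : (k + 1 : ℝ) ≠ 0 := by positivity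
      simpa [hk, hψz] using key
    intro φ
    have hd : ∀ u : Fin d → ℝ, HasDerivAt (fun τ : ℝ => (φ ⬝ᵥ u + τ * (ψ ⬝ᵥ u)) ^ (k + 1))
        ((k + 1 : ℝ) * (φ ⬝ᵥ u) ^ k * (ψ ⬝ᵥ u)) 0 := by
      intro u
      have h1 : HasDerivAt (fun τ : ℝ => φ ⬝ᵥ u + τ * (ψ ⬝ᵥ u)) (ψ ⬝ᵥ u) 0 := by
        simpa using ((hasDerivAt_id (0 : ℝ)).mul_const (ψ ⬝ᵥ u)).const_add (φ ⬝ᵥ u)
      have := h1.fun_pow (k + 1)
      simpa using this
    have hL := (hd z).const_mul c0
    have hR := HasDerivAt.fun_sum (u := insert t T) (fun u _ => (hd u).const_mul (c u))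
    have heq : (fun τ : ℝ => c0 * (φ ⬝ᵥ z + τ * (ψ ⬝ᵥ z)) ^ (k + 1)) =
        fun τ : ℝ => ∑ u ∈ insert t T, c u * (φ ⬝ᵥ u + τ * (ψ ⬝ᵥ u)) ^ (k + 1) := by
      funext τ
      have := h (φ + τ • ψ)
      simpa only [add_dotProduct, smul_dotProduct, smul_eq_mul] using this
    rw [heq] at hL
    have := hL.unique hR
    rw [sum_insert htT, hψt] at this
    calc _ = c0 * ((k + 1 : ℝ) * (φ ⬝ᵥ z) ^ k * (ψ ⬝ᵥ z)) := by ring
      _ = _ := this
      _ = _ := by
        simp only [mul_zero, zero_add]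
        exact sum_congr rfl fun u _ => by ring

/-- The grid of linear forms with coefficients in `0, ..., m`. -/
abbrev Grid (d m : ℕ) := Fin d → Fin (m + 1)

/-- The linear form attached to a grid point. -/
def lin {d m : ℕ} (β : Grid d m) (x : Fin d → ℝ) : ℝ := ∑ c, ((β c : ℕ) : ℝ) * x c

lemma pow_indep {d m : ℕ} (z : Fin d → ℝ) (hz : z ≠ 0) (T : Finset (Fin d → ℝ))
    (c : (Fin d → ℝ) → ℝ) (hT : T.card ≤ m) (hpar : ∀ t ∈ T, ∀ a : ℝ, z ≠ a • t)
    (h : ∀ β : Grid d m, (lin β z) ^ m = ∑ t ∈ T, c t * (lin β t) ^ m) : False := by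
  classical
  have key : (1 : ℝ) = 0 := by
    apply pow_indep_all z hz T m 1 c hT hpar
    intro φ
    let L : (Fin d → ℝ) → MvPolynomial (Fin d) ℝ :=
      fun u => ∑ i, MvPolynomial.X i * MvPolynomial.C (u i)
    have hL : ∀ u, (L u ^ m).totalDegree ≤ m := by
      intro u
      refine (MvPolynomial.totalDegree_pow _ _).trans ?_
      have : (L u).totalDegree ≤ 1 := by
        refine (MvPolynomial.totalDegree_finsetSum _ _).trans ?_
        refine Finset.sup_le fun i _ => ?_
        refine (MvPolynomial.totalDegree_mul _ _).trans ?_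
        simp
      nlinarith
    have hev : ∀ u ψ : Fin d → ℝ, MvPolynomial.eval ψ (L u) = ψ ⬝ᵥ u := by
      intro u ψ
      simp [L, dotProduct]
    let Q : MvPolynomial (Fin d) ℝ := L z ^ m - ∑ t ∈ T, MvPolynomial.C (c t) * L t ^ m
    have hQd : Q.totalDegree ≤ m := by
      refine (MvPolynomial.totalDegree_sub _ _).trans (max_le (hL z) ?_)
      refine (MvPolynomial.totalDegree_finsetSum _ _).trans ?_
      refine Finset.sup_le fun t _ => ?_
      refine (MvPolynomial.totalDegree_mul _ _).trans ?_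
      simpa using hL t
    have hQe : ∀ ψ : Fin d → ℝ, MvPolynomial.eval ψ Q =
        (ψ ⬝ᵥ z) ^ m - ∑ t ∈ T, c t * (ψ ⬝ᵥ t) ^ m := by
      intro ψ
      simp [Q, hev]
    have hQ : Q = 0 := by
      apply MvPolynomial.eq_zero_of_eval_zero_at_prod_finset Q
        (fun _ => (range (m + 1)).image (fun k : ℕ => (k : ℝ)))
      · intro i
        rw [card_image_of_injective _ Nat.cast_injective, card_range]
        exact Nat.lt_succ_of_le ((MvPolynomial.degreeOf_le_totalDegree _ _).trans hQd)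
      · intro x hx
        have : ∀ i, ∃ k : Fin (m + 1), ((k : ℕ) : ℝ) = x i := by
          intro i
          obtain ⟨k, hk, hk'⟩ := mem_image.mp (hx i)
          exact ⟨⟨k, mem_range.mp hk⟩, hk'⟩
        choose β hβ using this
        have hl : ∀ u, lin β u = x ⬝ᵥ u := by
          intro u
          simp [lin, dotProduct, hβ]
        rw [hQe, ← hl, h β]
        simp [hl]
    have := hQe φ
    rw [hQ] at this
    simp only [map_zero] at this
    linarith
  exact one_ne_zero key

/-- The form `∑ s β * (β · x) ^ m`. -/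
def form {d m : ℕ} (s : Grid d m → ℝ) (x : Fin d → ℝ) : ℝ := ∑ β, s β * (lin β x) ^ m

lemma ker_small {ι : Type} [Fintype ι] (s : ι → ℝ) (hs : Gen s) (U : Finset ℝ)
    (L : IntermediateField ℚ ℝ) (hL : L = IntermediateField.adjoin ℚ (U : Set ℝ))
    (W : Submodule L (ι → L)) (hW : ∀ w ∈ W, ∑ i, (w i : ℝ) * s i = 0) :
    Module.finrank L W ≤ U.card := by
  classical
  let Ψ : (ι → L) →ₗ[L] ℝ := Fintype.linearCombination L s
  have hΨ : ∀ w : ι → L, Ψ w = ∑ i, (w i : ℝ) * s i := by
    intro w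
    simp [Ψ, Fintype.linearCombination_apply, IntermediateField.smul_def]
  have hker : W ≤ LinearMap.ker Ψ := fun w hw => by
    rw [LinearMap.mem_ker, hΨ]; exact hW w hw
  have h1 := Submodule.finrank_mono hker
  have h2 := LinearMap.finrank_range_add_finrank_ker Ψ
  rw [Module.finrank_fintype_fun_eq_card] at h2
  set V := LinearMap.range Ψ
  let b := Module.finBasis L V
  let C : Finset ℝ := univ.image fun j => (b j : ℝ)
  have hC : C.card ≤ Module.finrank L V := by
    refine card_image_le.trans ?_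
    simp
  have hmem : ∀ i, s i ∈ IntermediateField.adjoin ℚ ((U ∪ C : Finset ℝ) : Set ℝ) := by
    intro i
    have hsi : s i ∈ V := ⟨Pi.single i 1, by
      rw [hΨ, Finset.sum_eq_single i] <;> simp +contextual [Pi.single_apply]⟩
    have := b.sum_repr ⟨s i, hsi⟩
    have h3 : s i = ∑ j, ((b.repr ⟨s i, hsi⟩ j : L) : ℝ) * (b j : ℝ) := by
      have := congrArg (fun v : V => (v : ℝ)) this
      simp only [AddSubmonoidClass.coe_finsetSum, SetLike.val_smul] at this
      exact this.symm
    rw [h3]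
    refine sum_mem fun j _ => mul_mem ?_ ?_
    · refine IntermediateField.adjoin.mono ℚ (U : Set ℝ) _ ?_ (hL ▸ (b.repr ⟨s i, hsi⟩ j).2)
      intro x hx
      simp only [coe_union, Set.mem_union]
      exact Or.inl hx
    · apply IntermediateField.subset_adjoin
      simp only [coe_union, Set.mem_union]
      right
      simp [C]
  have h4 := hs _ hmem
  have h5 := card_union_le U C
  omega

/-- The isolation property: outside at most `2 |U|` directions, values of the form are taken
only once up to parallel vectors. -/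
lemma isolate {d m : ℕ} (s : Grid d m → ℝ) (hs : Gen s) (U : Finset ℝ)
    (Z : Finset (Fin d → ℝ)) (hm : 2 * U.card + 1 ≤ m) (hZ0 : ∀ z ∈ Z, z ≠ 0)
    (hZ : ∀ z ∈ Z, ∀ c, z c ∈ IntermediateField.adjoin ℚ (U : Set ℝ)) :
    ∃ T ⊆ Z, T.card ≤ 2 * U.card ∧ ∀ z ∈ Z, (∀ t ∈ T, ∀ a : ℝ, z ≠ a • t) →
      ∀ z' ∈ Z, form s z = form s z' → ∃ a : ℝ, z = a • z' := by
  classical
  obtain ⟨L, hLdef⟩ : ∃ L, L = IntermediateField.adjoin ℚ (U : Set ℝ) := ⟨_, rfl⟩
  rw [← hLdef] at hZ
  have hlin : ∀ z ∈ Z, ∀ β : Grid d m, (lin β z) ^ m ∈ L := fun z hz β =>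
    pow_mem (sum_mem fun c _ => mul_mem (natCast_mem _ _) (hZ z hz c)) _
  let ev : (Fin d → ℝ) → Grid d m → L := fun z β =>
    if h : z ∈ Z then ⟨(lin β z) ^ m, hlin z h β⟩ else 0
  have hev : ∀ z ∈ Z, ∀ β, (ev z β : ℝ) = (lin β z) ^ m := by
    intro z hz β
    simp [ev, hz]
  by_contra hcon
  have main : ∀ k ≤ U.card + 1, ∃ T ⊆ Z, T.card ≤ 2 * k ∧
      ∃ W : Submodule L (Grid d m → L), k ≤ Module.finrank L W ∧
        (∀ w ∈ W, ∑ i, (w i : ℝ) * s i = 0) ∧ W ≤ Submodule.span L (ev '' (T : Set _)) := by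
    intro k
    induction k with
    | zero => intro _; exact ⟨∅, empty_subset _, by simp, ⊥, by simp, by simp, by simp⟩
    | succ k ih =>
      intro hk
      obtain ⟨T, hTZ, hTc, W, hWr, hWk, hWs⟩ := ih (by omega)
      have : ¬ ∀ z ∈ Z, (∀ t ∈ T, ∀ a : ℝ, z ≠ a • t) →
          ∀ z' ∈ Z, form s z = form s z' → ∃ a : ℝ, z = a • z' := fun h =>
        hcon ⟨T, hTZ, by omega, h⟩
      push Not at this
      obtain ⟨z, hz, hzT, z', hz', hf, hzz⟩ := this
      let w : Grid d m → L := ev z - ev z'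
      have hwk : ∑ i, (w i : ℝ) * s i = 0 := by
        have : ∀ i, (w i : ℝ) * s i = s i * (lin i z) ^ m - s i * (lin i z') ^ m := by
          intro i
          simp only [w, Pi.sub_apply, AddSubgroupClass.coe_sub, hev z hz, hev z' hz']
          ring
        simp only [this, sum_sub_distrib]
        exact sub_eq_zero.mpr hf
      have hwW : w ∉ W := by
        intro hw
        have h1 : ev z ∈ Submodule.span L (ev '' ((insert z' T : Finset _) : Set _)) := by
          have h2 : ev z = w + ev z' := by simp [w]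
          rw [h2]
          refine add_mem (Submodule.span_mono ?_ (hWs hw)) (Submodule.subset_span ?_)
          · exact Set.image_mono (by simp)
          · exact ⟨z', by simp, rfl⟩
        rw [Submodule.mem_span_image_finset_iff_exists_fun'] at h1
        obtain ⟨c, hc⟩ := h1
        refine pow_indep (m := m) z (hZ0 z hz) (insert z' T) (fun t => (c t : ℝ)) ?_ ?_ ?_
        · exact (card_insert_le _ _).trans (by omega)
        · intro t ht
          rcases mem_insert.mp ht with rfl | ht
          · exact hzz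
          · exact hzT t ht
        · intro β
          rw [← hev z hz, ← hc]
          simp only [Finset.sum_apply, Pi.smul_apply, smul_eq_mul,
            AddSubmonoidClass.coe_finsetSum, MulMemClass.coe_mul]
          refine sum_congr rfl fun t ht => ?_
          rw [hev t]
          rcases mem_insert.mp ht with rfl | ht
          · exact hz'
          · exact hTZ ht
      refine ⟨insert z (insert z' T), ?_, ?_, W ⊔ Submodule.span L {w}, ?_, ?_, ?_⟩
      · intro t ht
        rcases mem_insert.mp ht with rfl | ht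
        · exact hz
        rcases mem_insert.mp ht with rfl | ht
        · exact hz'
        · exact hTZ ht
      · have := card_insert_le z (insert z' T)
        have := card_insert_le z' T
        omega
      · have : W < W ⊔ Submodule.span L {w} := by
          refine lt_of_le_of_ne le_sup_left fun h => hwW ?_
          rw [h]
          exact Submodule.mem_sup_right (Submodule.mem_span_singleton_self w)
        have := Submodule.finrank_lt_finrank_of_lt this
        omega
      · intro v hv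
        obtain ⟨x, hx, y, hy, rfl⟩ := Submodule.mem_sup.mp hv
        obtain ⟨a, rfl⟩ := Submodule.mem_span_singleton.mp hy
        have h1 := hWk x hx
        have : ∀ i, ((x + a • w) i : ℝ) * s i = (x i : ℝ) * s i + (a : ℝ) * ((w i : ℝ) * s i) := by
          intro i
          simp only [Pi.add_apply, Pi.smul_apply, smul_eq_mul, AddMemClass.coe_add,
            MulMemClass.coe_mul]
          ring
        simp only [this, sum_add_distrib, ← mul_sum, h1, hwk]
        simp
      · refine sup_le (hWs.trans (Submodule.span_mono (Set.image_mono ?_))) ?_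
        · intro t ht
          simp only [coe_insert, Set.mem_insert_iff]
          exact Or.inr (Or.inr ht)
        · rw [Submodule.span_singleton_le_iff_mem]
          exact sub_mem (Submodule.subset_span ⟨z, by simp, rfl⟩)
            (Submodule.subset_span ⟨z', by simp, rfl⟩)
  obtain ⟨T, -, -, W, hWr, hWk, -⟩ := main (U.card + 1) le_rfl
  have := ker_small s hs U L hLdef W hWk
  omega

end Pool.Agent.Lib.MP_9f0d12_co
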