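import Pool.Agent.Lib.MP_9f0d12_co.Basic

/-!
The lower bound `n - 1` for the number of distinct distances in a generic norm.
-/

open Finset

open scoped Pointwise

namespace Pool.Agent.Lib.MP_9f0d12_co

variable {d : ℕ}

lemma exists_dual (L : Finset (Fin d → ℝ))
    (hL : LinearIndependent ℚ ((↑) : ↥(L : Set (Fin d → ℝ)) → (Fin d → ℝ))) (x : Fin d → ℝ)
    (hx : x ∈ L) : ∃ ψ : (Fin d → ℝ) →ₗ[ℚ] ℚ, ∀ y ∈ L, ψ y = if y = x then 1 else 0 := by
  classical
  obtain ⟨g, hg⟩ := LinearMap.exists_extend hL.repr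
  refine ⟨(Finsupp.lapply ⟨x, hx⟩).comp g, fun y hy => ?_⟩
  have hmem : y ∈ Submodule.span ℚ (Set.range ((↑) : ↥(L : Set (Fin d → ℝ)) → (Fin d → ℝ))) :=
    Submodule.subset_span ⟨⟨y, hy⟩, rfl⟩
  have h1 : g y = hL.repr ⟨y, hmem⟩ := by rw [← hg]; rfl
  have h2 := hL.repr_eq_single ⟨y, hy⟩ ⟨y, hmem⟩ rfl
  simp only [LinearMap.comp_apply, Finsupp.lapply_apply, h1, h2, Finsupp.single_apply,
    Subtype.mk.injEq]

/-- The property of `L` that is used: dual functionals. -/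
def Dual (L : Finset (Fin d → ℝ)) : Prop :=
  ∀ x ∈ L, ∃ ψ : (Fin d → ℝ) →ₗ[ℚ] ℚ, ∀ y ∈ L, ψ y = if y = x then 1 else 0

lemma Dual.sub_inj {L : Finset (Fin d → ℝ)} (hL : Dual L) {a b c e : Fin d → ℝ} (ha : a ∈ L)
    (hb : b ∈ L) (hc : c ∈ L) (he : e ∈ L) (hab : a ≠ b) (h : a - b = c - e) : a = c ∧ b = e := by
  obtain ⟨ψ, hψ⟩ := hL a ha
  have h1 := congrArg ψ h
  rw [map_sub, map_sub, hψ a ha, hψ b hb, hψ c hc, hψ e he, if_pos rfl, if_neg hab.symm] at h1
  have : c = a := by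
    by_contra hca
    rw [if_neg hca] at h1
    split_ifs at h1 <;> norm_num at h1
  subst this
  exact ⟨rfl, sub_right_injective h⟩

lemma Dual.four {L P : Finset (Fin d → ℝ)} (hL : Dual L) (hLP : L ⊆ P) :
    L.card ^ 4 ≤ (15 • P).card := by
  classical
  let F : (Fin d → ℝ) × (Fin d → ℝ) × (Fin d → ℝ) × (Fin d → ℝ) → (Fin d → ℝ) :=
    fun q => q.1 + (2 • q.2.1 + (4 • q.2.2.1 + 8 • q.2.2.2))
  have hinj : Set.InjOn F (L ×ˢ L ×ˢ L ×ˢ L : Finset _) := by
    rintro ⟨a, b, c, e⟩ h ⟨a', b', c', e'⟩ h' heq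
    simp only [coe_product, Set.mem_prod, mem_coe] at h h'
    obtain ⟨ha, hb, hc, he⟩ := h
    obtain ⟨ha', hb', hc', he'⟩ := h'
    simp only [F] at heq
    have h4 : e' = e := by
      obtain ⟨ψ, hψ⟩ := hL e he
      have h1 := congrArg ψ heq
      simp only [map_add, map_nsmul, hψ _ ha, hψ _ hb, hψ _ hc, hψ _ he, hψ _ ha', hψ _ hb',
        hψ _ hc', hψ _ he', if_true] at h1
      by_contra hne
      rw [if_neg hne] at h1
      split_ifs at h1 <;> norm_num at h1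
    subst h4
    have heq3 : a + (2 • b + 4 • c) = a' + (2 • b' + 4 • c') := by
      have : a + (2 • b + 4 • c) + 8 • e' = a' + (2 • b' + 4 • c') + 8 • e' := by
        simpa only [add_assoc] using heq
      exact add_right_cancel this
    have h3 : c' = c := by
      obtain ⟨ψ, hψ⟩ := hL c hc
      have h1 := congrArg ψ heq3
      simp only [map_add, map_nsmul, hψ _ ha, hψ _ hb, hψ _ hc, hψ _ ha', hψ _ hb',
        hψ _ hc', if_true] at h1
      by_contra hne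
      rw [if_neg hne] at h1
      split_ifs at h1 <;> norm_num at h1
    subst h3
    have heq2 : a + 2 • b = a' + 2 • b' := by
      have : a + 2 • b + 4 • c' = a' + 2 • b' + 4 • c' := by
        simpa only [add_assoc] using heq3
      exact add_right_cancel this
    have h2 : b' = b := by
      obtain ⟨ψ, hψ⟩ := hL b hb
      have h1 := congrArg ψ heq2
      simp only [map_add, map_nsmul, hψ _ ha, hψ _ hb, hψ _ ha', hψ _ hb', if_true] at h1
      by_contra hne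
      rw [if_neg hne] at h1
      split_ifs at h1 <;> norm_num at h1
    subst h2
    rw [add_right_cancel heq2]
  have hsub : (L ×ˢ L ×ˢ L ×ˢ L).image F ⊆ 15 • P := by
    intro z hz
    obtain ⟨⟨a, b, c, e⟩, h, rfl⟩ := mem_image.mp hz
    simp only [mem_product] at h
    obtain ⟨ha, hb, hc, he⟩ := h
    rw [show (15 : ℕ) = 1 + (2 + (4 + 8)) from rfl, add_nsmul, add_nsmul, add_nsmul, one_nsmul]
    exact Finset.add_mem_add (hLP ha) (Finset.add_mem_add (Finset.nsmul_mem_nsmul (hLP hb))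
      (Finset.add_mem_add (Finset.nsmul_mem_nsmul (hLP hc)) (Finset.nsmul_mem_nsmul (hLP he))))
  have := card_le_card hsub
  rw [card_image_of_injOn hinj] at this
  simp only [card_product] at this
  calc L.card ^ 4 = L.card * (L.card * (L.card * L.card)) := by ring
    _ ≤ _ := this

lemma plue {L P : Finset (Fin d → ℝ)} (hL : Dual L) (hLP : L ⊆ P) (hP : P.Nonempty) (K : ℕ)
    (hK : (P - P).card ≤ K * P.card) : L.card ^ 4 ≤ K ^ 15 * P.card := by
  have h1 := hL.four hLP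
  have h2 := Finset.pluennecke_ruzsa_inequality_nsmul_sub hP P 15
  have hpos : (0 : ℚ≥0) < P.card := by exact_mod_cast card_pos.mpr hP
  have h3 : ((P - P).card / P.card : ℚ≥0) ≤ K := by
    rw [div_le_iff₀ hpos]
    exact_mod_cast hK
  have h4 := h2.trans (mul_le_mul_of_nonneg_right (pow_le_pow_left₀ zero_le h3 15) hpos.le)
  have h5 : ((L.card ^ 4 : ℕ) : ℚ≥0) ≤ _ := le_trans (by exact_mod_cast h1) h4
  exact_mod_cast h5

/-- all coordinates of the points of `S` -/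
noncomputable def coords (S : Finset (Fin d → ℝ)) : Finset ℝ :=
  (S ×ˢ (univ : Finset (Fin d))).image fun q => q.1 q.2

lemma card_coords (S : Finset (Fin d → ℝ)) : (coords S).card ≤ d * S.card := by
  refine card_image_le.trans ?_
  simp [mul_comm]

lemma mem_adjoin_of_span (S : Finset (Fin d → ℝ)) (x : Fin d → ℝ)
    (hx : x ∈ Submodule.span ℚ (S : Set (Fin d → ℝ))) (c : Fin d) :
    x c ∈ IntermediateField.adjoin ℚ (coords S : Set ℝ) := by
  induction hx using Submodule.span_induction with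
  | mem x hx =>
    exact IntermediateField.subset_adjoin _ _
      (mem_image.mpr ⟨(x, c), mem_product.mpr ⟨hx, mem_univ _⟩, rfl⟩)
  | zero => exact zero_mem _
  | add x y _ _ hx hy => exact add_mem hx hy
  | smul a x _ hx => exact IntermediateField.smul_mem _ hx

lemma offDiag_le {φ : Fin d → ℝ} {M : Finset (Fin d → ℝ)}
    (hφ : ∀ x ∈ M, ∀ y ∈ M, φ ⬝ᵥ x = φ ⬝ᵥ y → x = y) :
    M.card * M.card ≤ 2 * ((M ×ˢ M).filter fun e => 0 < φ ⬝ᵥ (e.1 - e.2)).card + M.card := by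
  classical
  set E := (M ×ˢ M).filter fun e => 0 < φ ⬝ᵥ (e.1 - e.2)
  have : M.offDiag ⊆ E ∪ E.image Prod.swap := by
    rintro ⟨x, y⟩ h
    obtain ⟨hx, hy, hxy⟩ := mem_offDiag.mp h
    have hne : φ ⬝ᵥ x ≠ φ ⬝ᵥ y := fun h => hxy (hφ x hx y hy h)
    rcases lt_or_gt_of_ne hne with h | h
    · exact mem_union_right _ (mem_image.mpr ⟨(y, x), mem_filter.mpr ⟨mem_product.mpr ⟨hy, hx⟩,
        by rw [dotProduct_sub]; linarith⟩, rfl⟩)
    · exact mem_union_left _ (mem_filter.mpr ⟨mem_product.mpr ⟨hx, hy⟩,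
        by rw [dotProduct_sub]; linarith⟩)
  have h1 := (card_le_card this).trans (card_union_le _ _)
  have h2 : (E.image Prod.swap).card ≤ E.card := card_image_le
  rw [offDiag_card] at h1
  omega

section norm

variable {N : (Fin d → ℝ) → ℝ} (hN1 : ∀ (c : ℝ) x, N (c • x) = |c| * N x)
  (hN0 : ∀ x, N x = 0 → x = 0) {φ : Fin d → ℝ} {P : Finset (Fin d → ℝ)}
  (hφ : ∀ x ∈ P, ∀ y ∈ P, φ ⬝ᵥ x = φ ⬝ᵥ y → x = y)
include hN1 hN0 hφ

lemma large_rank (hd : 0 < d) (hI : Iso N (d * P.card)) {L : Finset (Fin d → ℝ)} (hL : Dual L)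
    (hLP : L ⊆ P)
    (hB : ∀ δ, ((Zp φ P).filter fun z => dir φ z = δ).card ≤ 2 * (d * L.card))
    (h1 : 8 * (512 * d ^ 2) ^ 2 * P.card ≤ L.card ^ 2)
    (h2 : 1024 * d * (512 * d ^ 2) * (4 * d * (1024 * d * (512 * d ^ 2)) + 1) ≤ L.card) :
    P.card ≤ ((Zp φ P).image N).card := by
  classical
  let E := (L ×ˢ L).filter fun e => 0 < φ ⬝ᵥ (e.1 - e.2)
  let g : (Fin d → ℝ) × (Fin d → ℝ) → (Fin d → ℝ) := fun e => dir φ (e.1 - e.2)
  have hE : ∀ e ∈ E, e.1 ∈ L ∧ e.2 ∈ L ∧ e.1 ≠ e.2 := by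
    intro e he
    obtain ⟨h, h'⟩ := mem_filter.mp he
    refine ⟨(mem_product.mp h).1, (mem_product.mp h).2, fun h => ?_⟩
    simp [h] at h'
  have hEZ : ∀ e ∈ E, e.1 - e.2 ∈ Zp φ P := fun e he =>
    mem_Zp.mpr ⟨_, hLP (hE e he).1, _, hLP (hE e he).2.1, (mem_filter.mp he).2, rfl⟩
  have hEinj : Set.InjOn (fun e : (Fin d → ℝ) × (Fin d → ℝ) => e.1 - e.2) E := by
    intro e he e' he' h
    obtain ⟨a, b⟩ := hL.sub_inj (hE e he).1 (hE e he).2.1 (hE e' he').1 (hE e' he').2.1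
      (hE e he).2.2 h
    exact Prod.ext a b
  have hBE : ∀ δ, (E.filter fun e => g e = δ).card ≤ 2 * (d * L.card) := by
    intro δ
    refine le_trans ?_ (hB δ)
    exact card_le_card_of_injOn (fun e => e.1 - e.2) (fun e he => by
      obtain ⟨a, b⟩ := mem_filter.mp he
      exact mem_filter.mpr ⟨hEZ e a, b⟩) (hEinj.mono (coe_subset.mpr (filter_subset _ _)))
  obtain ⟨ρ, hρ⟩ : ∃ ρ : ℕ, ρ = 512 * d ^ 2 := ⟨_, rfl⟩
  obtain ⟨c₀, hc₀⟩ : ∃ c₀ : ℕ, c₀ = 1024 * d * ρ := ⟨_, rfl⟩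
  rw [← hρ] at h1 h2
  rw [← hc₀] at h2
  have hρ2 : 2 ≤ ρ := by nlinarith
  have hc₀0 : 0 < c₀ := by rw [hc₀]; positivity
  have hH : ∀ e ∈ E, c₀ * (E.filter fun e' => g e' = g e ∧
      ¬ Disjoint ({e.1, e.2} : Finset _) {e'.1, e'.2}).card ≤ 4 * L.card := by
    intro e he
    let M := L.filter fun x => ∃ t : ℝ, x = e.1 + t • g e
    have hline : ∀ e' ∈ E, g e' = g e → (e'.1 ∈ M ↔ e'.2 ∈ M) := by
      intro e' he' hg
      have h0 := eq_smul_dir (mem_filter.mp he').2.ne'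
      have h0' : e'.1 - e'.2 = (φ ⬝ᵥ (e'.1 - e'.2)) • g e := hg ▸ h0
      constructor
      · intro h
        obtain ⟨t, ht⟩ := (mem_filter.mp h).2
        refine mem_filter.mpr ⟨(hE e' he').2.1, t - φ ⬝ᵥ (e'.1 - e'.2), ?_⟩
        rw [sub_smul, ← h0', ← add_sub_assoc, ← ht]
        abel
      · intro h
        obtain ⟨t, ht⟩ := (mem_filter.mp h).2
        refine mem_filter.mpr ⟨(hE e' he').1, t + φ ⬝ᵥ (e'.1 - e'.2), ?_⟩
        rw [add_smul, ← h0', ← add_assoc, ← ht]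
        abel
    have m1 : e.1 ∈ M := mem_filter.mpr ⟨(hE e he).1, 0, by simp⟩
    have m2 : e.2 ∈ M := (hline e he rfl).mp m1
    have hsub : (E.filter fun e' => g e' = g e ∧
        ¬ Disjoint ({e.1, e.2} : Finset _) {e'.1, e'.2}) ⊆
        (({e.1, e.2} : Finset _) ×ˢ M) ∪ (M ×ˢ ({e.1, e.2} : Finset _)) := by
      intro e' he'
      obtain ⟨he', hg, hnd⟩ := mem_filter.mp he'
      obtain ⟨x, hx, hx'⟩ := not_disjoint_iff.mp hnd
      have hxM : x ∈ M := by
        rcases mem_insert.mp hx with rfl | hx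
        · exact m1
        · rw [mem_singleton.mp hx]; exact m2
      rcases mem_insert.mp hx' with rfl | hx'
      · exact mem_union_left _ (mem_product.mpr ⟨hx, (hline e' he' hg).mp hxM⟩)
      · rw [mem_singleton.mp hx'] at hx hxM
        exact mem_union_right _ (mem_product.mpr ⟨(hline e' he' hg).mpr hxM, hx⟩)
    have c1 := (card_le_card hsub).trans (card_union_le _ _)
    rw [card_product, card_product, card_pair (hE e he).2.2] at c1
    have c2 := offDiag_le (φ := φ) (M := M) fun x hx y hy =>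
      hφ x (hLP (mem_filter.mp hx).1) y (hLP (mem_filter.mp hy).1)
    have c3 : ((M ×ˢ M).filter fun e => 0 < φ ⬝ᵥ (e.1 - e.2)) ⊆ E.filter fun e' => g e' = g e := by
      intro e' he'
      obtain ⟨h, hpos⟩ := mem_filter.mp he'
      obtain ⟨a, b⟩ := mem_product.mp h
      obtain ⟨a, t, ht⟩ := mem_filter.mp a
      obtain ⟨b, t', ht'⟩ := mem_filter.mp b
      refine mem_filter.mpr ⟨mem_filter.mpr ⟨mem_product.mpr ⟨a, b⟩, hpos⟩, ?_⟩
      have h3 : e'.1 - e'.2 = (t - t') • g e := by rw [ht, ht', sub_smul]; abel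
      have h4 : t - t' ≠ 0 := fun h => by
        rw [h3, h] at hpos
        simp at hpos
      show dir φ (e'.1 - e'.2) = g e
      rw [h3, dir_smul _ _ h4]
      exact dir_smul _ _ (inv_ne_zero (mem_filter.mp he).2.ne')
    have c4 := (card_le_card c3).trans (hBE (g e))
    have c5 : c₀ * M.card ≤ L.card := by
      by_contra hc
      have hc : L.card < c₀ * M.card := not_le.mp hc
      have c6 : 4 * d * c₀ + 1 < M.card := lt_of_mul_lt_mul_left (h2.trans_lt hc) (Nat.zero_le _)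
      have c7 : M.card * M.card ≤ 4 * d * L.card + M.card := by nlinarith
      have c8 : 4 * d * L.card ≤ 4 * d * (c₀ * M.card) := Nat.mul_le_mul_left _ hc.le
      nlinarith
    nlinarith
  have hρR : (2 : ℝ) ≤ ρ := by exact_mod_cast hρ2
  have hdR : (1 : ℝ) ≤ d := by exact_mod_cast hd
  have hL2 : 2 ≤ L.card := by
    have a1 : 2 ≤ c₀ := by rw [hc₀]; nlinarith
    exact le_trans (a1.trans (Nat.le_mul_of_pos_right _ (by omega))) h2
  have hLR : (2 : ℝ) ≤ L.card := by exact_mod_cast hL2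
  have hc₀R : (c₀ : ℝ) = 1024 * d * ρ := by exact_mod_cast hc₀
  have hρR' : (ρ : ℝ) = 512 * d ^ 2 := by exact_mod_cast hρ
  obtain ⟨S, hSL, hS⟩ := sampling L E hE g (2 * (d * L.card)) (L.card / (256 * d * ρ))
    (fun e _ => by exact_mod_cast hBE (g e))
    (fun e he => by
      have this := (Nat.cast_le (α := ℝ)).mpr (hH e he)
      rw [Nat.cast_mul, Nat.cast_mul, Nat.cast_ofNat] at this
      rw [le_div_iff₀ (by positivity)]
      rw [hc₀R] at this
      linarith)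
    (1 / ρ) (L.card / (32 * d * ρ)) (2 * d) (by positivity)
    (by rw [div_lt_one (by positivity)]; linarith) (by positivity)
  have hSP : S ⊆ P := hSL.trans hLP
  obtain ⟨T, hTc, hT⟩ := iso_dir hN1 hN0 hI (coords S) (Zp φ S)
    ((card_coords S).trans (Nat.mul_le_mul_left _ (card_le_card hSP))) (fun z hz => Zp_pos hz)
    (fun z hz c => by
      obtain ⟨x, hx, y, hy, -, rfl⟩ := mem_Zp.mp hz
      exact mem_adjoin_of_span S _ (sub_mem (Submodule.subset_span hx)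
        (Submodule.subset_span hy)) c)
  have hT' : (T.card : ℝ) ≤ 2 * d * S.card := by
    have := card_coords S
    have : T.card ≤ 2 * d * S.card := by nlinarith
    exact_mod_cast this
  have k1 := hS T hT'
  have k2 : (E.filter fun e => e.1 ∈ S ∧ e.2 ∈ S ∧ g e ∉ T).card ≤ ((Zp φ P).image N).card := by
    refine card_le_card_of_injOn (fun e => N (e.1 - e.2)) (fun e he =>
      mem_image_of_mem _ (hEZ e (mem_filter.mp he).1)) fun e he e' he' h => ?_
    obtain ⟨a, a1, a2, a3⟩ := mem_filter.mp he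
    obtain ⟨b, b1, b2, -⟩ := mem_filter.mp he'
    exact hEinj a b (hT _ (mem_Zp.mpr ⟨_, a1, _, a2, (mem_filter.mp a).2, rfl⟩) a3 _
      (mem_Zp.mpr ⟨_, b1, _, b2, (mem_filter.mp b).2, rfl⟩) h)
  have k3 : L.card * L.card ≤ 2 * E.card + L.card :=
    offDiag_le fun x hx y hy => hφ x (hLP hx) y (hLP hy)
  have k4 : (L.card : ℝ) ^ 2 ≤ 4 * E.card := by
    have : L.card ^ 2 ≤ 4 * E.card := by nlinarith
    exact_mod_cast this
  have k5 : (8 : ℝ) * ρ ^ 2 * P.card ≤ L.card ^ 2 := by exact_mod_cast h1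
  have k6 : (E.card : ℝ) * (1 / ρ) ^ 2 - L.card / (32 * d * ρ) * (2 * d) * (L.card * (1 / ρ)) -
      E.card * (L.card / (256 * d * ρ) * (1 / ρ) ^ 2 + 2 * (d * L.card) * (1 / ρ) ^ 4) /
        (L.card / (32 * d * ρ)) = (3 / 4 * E.card - L.card ^ 2 / 16) / ρ ^ 2 := by
    rw [hρR']
    field_simp
    ring
  rw [k6] at k1
  have k7 : (P.card : ℝ) ≤ (3 / 4 * E.card - L.card ^ 2 / 16) / ρ ^ 2 := by
    rw [le_div_iff₀ (by positivity)]
    linarith
  have : (P.card : ℝ) ≤ ((Zp φ P).image N).card := k7.trans (k1.trans (by exact_mod_cast k2))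
  exact_mod_cast this

end norm

/-- the threshold -/
def thr (d : ℕ) : ℕ :=
  5 + (1024 * d * (512 * d ^ 2) * (4 * d * (1024 * d * (512 * d ^ 2)) + 1)) ^ 2 +
    (4 * d ^ 2 * (2 * d + 1)) ^ 4 * (2 * (1 + 32 * d ^ 2 * (512 * d ^ 2) ^ 2) + 1) ^ 45

lemma lower_zero {N : (Fin d → ℝ) → ℝ} (hN1 : ∀ (c : ℝ) x, N (c • x) = |c| * N x)
    (hN0 : ∀ x, N x = 0 → x = 0) {φ : Fin d → ℝ} {P : Finset (Fin d → ℝ)}
    (hφ : ∀ x ∈ P, ∀ y ∈ P, φ ⬝ᵥ x = φ ⬝ᵥ y → x = y) (hd : 0 < d) (hI : Iso N (d * P.card))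
    (h0 : 0 ∈ P) (hn : thr d ≤ P.card) : P.card ≤ ((Zp φ P).image N).card + 1 := by
  classical
  have h5 : 5 ≤ P.card := le_trans (by unfold thr; omega) hn
  by_cases hcol : ((Zp φ P).image (dir φ)).card ≤ 1
  · have hinj : Set.InjOn N (Zp φ P) := fun z hz z' hz' h =>
      eq_of_dir hN1 hN0 (Zp_pos hz) (Zp_pos hz')
        (card_le_one.mp hcol _ (mem_image_of_mem _ hz) _ (mem_image_of_mem _ hz')) h
    rw [card_image_of_injOn hinj]
    exact card_Zp_ge hφ ⟨0, h0⟩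
  have hU := dirs_ge hφ h5 (not_le.mp hcol)
  by_contra hcon
  have hcon : ((Zp φ P).image N).card + 2 ≤ P.card := by omega
  obtain ⟨b, hbP, hspan, hind⟩ := exists_linearIndependent ℚ (P : Set (Fin d → ℝ))
  obtain ⟨L, rfl⟩ := (P.finite_toSet.subset hbP).exists_finset_coe
  have hLP : L ⊆ P := coe_subset.mp hbP
  have hL : Dual L := fun x hx => exists_dual L hind x hx
  obtain ⟨T, hTc, hT⟩ := iso_dir hN1 hN0 hI (coords L) (Zp φ P)
    ((card_coords L).trans (Nat.mul_le_mul_left _ (card_le_card hLP))) (fun z hz => Zp_pos hz)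
    (fun z hz c => by
      obtain ⟨x, hx, y, hy, -, rfl⟩ := mem_Zp.mp hz
      refine mem_adjoin_of_span L _ ?_ c
      rw [hspan]
      exact sub_mem (Submodule.subset_span hx) (Submodule.subset_span hy))
  have hTB : T.card ≤ 2 * (d * L.card) := hTc.trans (Nat.mul_le_mul_left _ (card_coords L))
  have hB : ∀ δ, ((Zp φ P).filter fun z => dir φ z = δ).card ≤ 2 * (d * L.card) := by
    intro δ
    have := count_one hN1 hN0 (Zp φ P) T (fun z hz => Zp_pos hz) hT δ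
    omega
  have hX := count_two (Zp φ P) T hT _ hB
  have hX' : (Zp φ P).card + 2 ≤ P.card + (2 * (d * L.card)) * (2 * (d * L.card)) := by
    have := Nat.mul_le_mul_right (2 * (d * L.card)) hTB
    omega
  by_cases hbig : 8 * (512 * d ^ 2) ^ 2 * P.card ≤ L.card ^ 2
  · have := large_rank hN1 hN0 hφ hd hI hL hLP hB hbig (by
      have a1 : (1024 * d * (512 * d ^ 2) * (4 * d * (1024 * d * (512 * d ^ 2)) + 1)) ^ 2 ≤
          P.card := le_trans (by unfold thr; omega) hn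
      have a2 : 1 ≤ 8 * (512 * d ^ 2) ^ 2 := Nat.succ_le_of_lt (by positivity)
      have a3 : P.card ≤ L.card ^ 2 := le_trans (by nlinarith) hbig
      exact (Nat.pow_le_pow_iff_left (by norm_num)).mp (a1.trans a3))
    omega
  have hsmall : L.card ^ 2 ≤ 8 * (512 * d ^ 2) ^ 2 * P.card := (not_le.mp hbig).le
  obtain ⟨K, hK⟩ : ∃ K, K = 2 * (1 + 32 * d ^ 2 * (512 * d ^ 2) ^ 2) + 1 := ⟨_, rfl⟩
  obtain ⟨c, hc⟩ : ∃ c, c = 4 * d ^ 2 * (2 * d + 1) := ⟨_, rfl⟩
  have hthr : c ^ 4 * K ^ 45 < P.card := by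
    refine lt_of_lt_of_le ?_ hn
    unfold thr
    rw [← hK, ← hc]
    omega
  have hsub := card_sub_le hφ
  have hpl := plue hL hLP ⟨0, h0⟩ K (by
    have a1 : (2 * (d * L.card)) * (2 * (d * L.card)) = 4 * d ^ 2 * L.card ^ 2 := by ring
    have a2 := Nat.mul_le_mul_left (4 * d ^ 2) hsmall
    have a3 : K * P.card = 3 * P.card + 2 * (4 * d ^ 2 * (8 * (512 * d ^ 2) ^ 2 * P.card)) := by
      rw [hK]; ring
    omega)
  obtain ⟨s, hs1, hs2⟩ := chains hφ (by omega) _ hB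
  have hs3 : s ≤ (2 * (d * L.card)) * (2 * (d * L.card)) := by omega
  have hL1 : 1 ≤ L.card := by
    rcases Nat.eq_zero_or_pos L.card with h | h
    · rw [h] at hs3
      have : s = 0 := by simpa using hs3
      rw [this] at hs2
      omega
    · exact h
  have hn3 : P.card ≤ c * L.card ^ 3 := by
    calc P.card ≤ s * (2 * (d * L.card) + 1) := hs2
      _ ≤ ((2 * (d * L.card)) * (2 * (d * L.card))) * (2 * (d * L.card) + L.card) := by gcongr
      _ = c * L.card ^ 3 := by rw [hc]; ring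
  have hn4 : P.card * P.card ^ 3 ≤ (c ^ 4 * K ^ 45) * P.card ^ 3 := by
    calc P.card * P.card ^ 3 = P.card ^ 4 := by ring
      _ ≤ (c * L.card ^ 3) ^ 4 := by gcongr
      _ = c ^ 4 * (L.card ^ 4) ^ 3 := by ring
      _ ≤ c ^ 4 * (K ^ 15 * P.card) ^ 3 := by gcongr
      _ = _ := by ring
  have := Nat.le_of_mul_le_mul_right hn4 (by positivity)
  omega

theorem lower {N : (Fin d → ℝ) → ℝ} (hN1 : ∀ (c : ℝ) x, N (c • x) = |c| * N x)
    (hN0 : ∀ x, N x = 0 → x = 0) {P : Finset (Fin d → ℝ)} (hd : 0 < d)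
    (hI : Iso N (d * P.card)) (hn : thr d ≤ P.card) :
    P.card - 1 ≤ {r : ℝ | ∃ x ∈ P, ∃ y ∈ P, x ≠ y ∧ r = N (x - y)}.ncard := by
  classical
  have h5 : 5 ≤ P.card := le_trans (by unfold thr; omega) hn
  obtain ⟨p, hp⟩ := card_pos.mp (by omega : 0 < P.card)
  obtain ⟨φ, hφ⟩ := exists_generic (P.offDiag.image fun e => e.1 - e.2) (by
    intro z hz
    obtain ⟨e, he, rfl⟩ := mem_image.mp hz
    exact sub_ne_zero.mpr (mem_offDiag.mp he).2.2)
  let Q := P.image fun x => x - p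
  have hQ : Q.card = P.card := card_image_of_injective _ sub_left_injective
  have hφQ : ∀ x ∈ Q, ∀ y ∈ Q, φ ⬝ᵥ x = φ ⬝ᵥ y → x = y := by
    intro x hx y hy h
    obtain ⟨x, hx', rfl⟩ := mem_image.mp hx
    obtain ⟨y, hy', rfl⟩ := mem_image.mp hy
    by_contra hne
    refine hφ (x - y) (mem_image.mpr ⟨(x, y), mem_offDiag.mpr ⟨hx', hy', fun h => hne ?_⟩, rfl⟩) ?_
    · simp only at h
      rw [h]
    · simp only [dotProduct_sub] at h ⊢
      linarith
  have := lower_zero hN1 hN0 hφQ hd (hQ ▸ hI) (mem_image.mpr ⟨p, hp, sub_self p⟩) (hQ ▸ hn)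
  have hsub : (((Zp φ Q).image N : Finset ℝ) : Set ℝ) ⊆
      {r : ℝ | ∃ x ∈ P, ∃ y ∈ P, x ≠ y ∧ r = N (x - y)} := by
    intro r hr
    obtain ⟨z, hz, rfl⟩ := mem_image.mp hr
    obtain ⟨x, hx, y, hy, h, rfl⟩ := mem_Zp.mp hz
    obtain ⟨x, hx', rfl⟩ := mem_image.mp hx
    obtain ⟨y, hy', rfl⟩ := mem_image.mp hy
    refine ⟨x, hx', y, hy', fun hxy => ?_, by rw [sub_sub_sub_cancel_right]⟩
    simp [hxy] at h
  have hfin : {r : ℝ | ∃ x ∈ P, ∃ y ∈ P, x ≠ y ∧ r = N (x - y)}.Finite := by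
    refine ((P ×ˢ P).image fun e => N (e.1 - e.2)).finite_toSet.subset ?_
    rintro r ⟨x, hx, y, hy, -, rfl⟩
    exact mem_image.mpr ⟨(x, y), mem_product.mpr ⟨hx, hy⟩, rfl⟩
  have h2 := Set.ncard_le_ncard hsub hfin
  rw [Set.ncard_coe_finset] at h2
  omega

theorem upper {N : (Fin d → ℝ) → ℝ} (hN1 : ∀ (c : ℝ) x, N (c • x) = |c| * N x) (hd : 0 < d)
    (n : ℕ) : ∃ P : Finset (Fin d → ℝ), P.card = n ∧
      {r : ℝ | ∃ x ∈ P, ∃ y ∈ P, x ≠ y ∧ r = N (x - y)}.ncard ≤ n - 1 := by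
  classical
  let v : Fin d → ℝ := fun _ => 1
  have hinj : Function.Injective fun i : ℕ => (i : ℝ) • v := by
    intro i j h
    have := congrFun h ⟨0, hd⟩
    simpa [v] using this
  refine ⟨(range n).image fun i : ℕ => (i : ℝ) • v, by
    rw [card_image_of_injective _ hinj, card_range], ?_⟩
  have hsub : {r : ℝ | ∃ x ∈ (range n).image fun i : ℕ => (i : ℝ) • v,
      ∃ y ∈ (range n).image fun i : ℕ => (i : ℝ) • v, x ≠ y ∧ r = N (x - y)} ⊆
      (((Ico 1 n).image fun k : ℕ => (k : ℝ) * N v : Finset ℝ) : Set ℝ) := by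
    rintro r ⟨x, hx, y, hy, hxy, rfl⟩
    obtain ⟨i, hi, rfl⟩ := mem_image.mp hx
    obtain ⟨j, hj, rfl⟩ := mem_image.mp hy
    have hij : i ≠ j := fun h => hxy (by rw [h])
    rw [mem_range] at hi hj
    rw [← sub_smul, hN1]
    rcases lt_or_gt_of_ne hij with h | h
    · refine mem_image.mpr ⟨j - i, mem_Ico.mpr ⟨by omega, by omega⟩, ?_⟩
      rw [Nat.cast_sub h.le, abs_sub_comm, abs_of_nonneg]
      exact sub_nonneg.mpr (by exact_mod_cast h.le)
    · refine mem_image.mpr ⟨i - j, mem_Ico.mpr ⟨by omega, by omega⟩, ?_⟩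
      rw [Nat.cast_sub h.le, abs_of_nonneg]
      exact sub_nonneg.mpr (by exact_mod_cast h.le)
  have h2 := Set.ncard_le_ncard hsub (Finset.finite_toSet _)
  rw [Set.ncard_coe_finset] at h2
  exact h2.trans (card_image_le.trans (by simp))

end Pool.Agent.Lib.MP_9f0d12_co
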